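import Pool.Agent.MP_cafee0_al.Defs

namespace Pool.Agent.MP_cafee0_al

open Polynomial

variable {K : Type*} [Field K] (q : K)

/-- the generators of `U⁺` -/
noncomputable def gen (b : Bool) : UPlus q := RingQuot.mkAlgHom K (Rel q) (FreeAlgebra.ι K b)

lemma serre_map {R S : Type*} [Ring R] [Algebra K R] [Ring S] [Algebra K S] (f : R →ₐ[K] S)
    (u v : R) : f (serre q u v) = serre q (f u) (f v) := by
  simp [serre]

lemma serre_gen (b : Bool) : serre q (gen q b) (gen q (!b)) = 0 := by
  unfold gen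
  rw [← serre_map]
  have h : Rel q (serre q (FreeAlgebra.ι K b) (FreeAlgebra.ι K (!b))) 0 := by
    cases b
    · exact ⟨Or.inr rfl, rfl⟩
    · exact ⟨Or.inl rfl, rfl⟩
  rw [RingQuot.mkAlgHom_rel K h, map_zero]

/-- the universal property -/
noncomputable def lift {R : Type*} [Ring R] [Algebra K R] (f : Bool → R)
    (hf : ∀ b, serre q (f b) (f (!b)) = 0) : UPlus q →ₐ[K] R :=
  RingQuot.liftAlgHom K ⟨FreeAlgebra.lift K f, by
    rintro x y ⟨h | h, rfl⟩
    · subst h
      rw [serre_map, map_zero, FreeAlgebra.lift_ι_apply, FreeAlgebra.lift_ι_apply]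
      exact hf true
    · subst h
      rw [serre_map, map_zero, FreeAlgebra.lift_ι_apply, FreeAlgebra.lift_ι_apply]
      exact hf false⟩

@[simp] lemma lift_gen {R : Type*} [Ring R] [Algebra K R] (f : Bool → R)
    (hf : ∀ b, serre q (f b) (f (!b)) = 0) (b : Bool) : lift q f hf (gen q b) = f b := by
  unfold lift gen
  rw [RingQuot.liftAlgHom_mkAlgHom_apply, FreeAlgebra.lift_ι_apply]

lemma adjoin_gen : Algebra.adjoin K (Set.range (gen q)) = ⊤ := by
  have h1 : Set.range (gen q) = (RingQuot.mkAlgHom K (Rel q)) '' Set.range (FreeAlgebra.ι K) := by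
    rw [← Set.range_comp]; rfl
  rw [h1, ← AlgHom.map_adjoin, FreeAlgebra.adjoin_range_ι, Algebra.map_top,
    AlgHom.range_eq_top]
  exact RingQuot.mkAlgHom_surjective K (Rel q)

/-- two algebra homs agreeing on generators are equal -/
lemma hom_ext {R : Type*} [Ring R] [Algebra K R] {f g : UPlus q →ₐ[K] R}
    (h : ∀ b, f (gen q b) = g (gen q b)) : f = g := by
  apply AlgHom.ext_of_adjoin_eq_top (adjoin_gen q)
  rintro _ ⟨b, rfl⟩
  exact h b

/-- augmentation -/
noncomputable def aug : UPlus q →ₐ[K] K := lift q (fun _ => 0) (by intro b; simp [serre])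

@[simp] lemma aug_gen (b : Bool) : aug q (gen q b) = 0 := by simp [aug]

instance : Nontrivial (UPlus q) := (aug q).toRingHom.domain_nontrivial

end Pool.Agent.MP_cafee0_al
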