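import Pool.Agent.MP_cafee0_al.Core

namespace Pool.Agent.MP_cafee0_al

open Polynomial

variable {K : Type*} [Field K] {q : K}

/-- word-length filtration -/
inductive Filt (q : K) : ℕ → UPlus q → Prop
  | one (n : ℕ) (c : K) : Filt q n (algebraMap K (UPlus q) c)
  | gen_mul {n : ℕ} (b : Bool) {u : UPlus q} (h : Filt q n u) : Filt q (n + 1) (gen q b * u)
  | add {n : ℕ} {u v : UPlus q} (hu : Filt q n u) (hv : Filt q n v) : Filt q n (u + v)
  | mono {n : ℕ} {u : UPlus q} (h : Filt q n u) : Filt q (n + 1) u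

lemma Filt.zero (n : ℕ) : Filt q n 0 := by
  have := Filt.one (q := q) n 0
  rwa [map_zero] at this

lemma Filt.smul {n : ℕ} {u : UPlus q} (h : Filt q n u) (c : K) : Filt q n (c • u) := by
  induction h with
  | one n d =>
    have : c • algebraMap K (UPlus q) d = algebraMap K (UPlus q) (c * d) := by
      rw [map_mul, Algebra.smul_def]
    rw [this]; exact Filt.one n _
  | gen_mul b _ ih => rw [← mul_smul_comm]; exact Filt.gen_mul b ih
  | add _ _ ihu ihv => rw [smul_add]; exact Filt.add ihu ihv
  | mono _ ih => exact Filt.mono ih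

lemma Filt.mono_le {n m : ℕ} {u : UPlus q} (h : Filt q n u) (hnm : n ≤ m) : Filt q m u := by
  induction m, hnm using Nat.le_induction with
  | base => exact h
  | succ m _ ih => exact Filt.mono ih

lemma exists_filt (z : UPlus q) : ∃ n, Filt q n z := by
  have hall : ∀ v ∈ Algebra.adjoin K (Set.range (gen q)), ∀ u : UPlus q, (∃ n, Filt q n u) →
      ∃ n, Filt q n (v * u) := by
    intro v hv
    induction hv using Algebra.adjoin_induction with
    | mem v hv =>
      obtain ⟨b, rfl⟩ := hv
      rintro u ⟨n, hn⟩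
      exact ⟨n + 1, Filt.gen_mul b hn⟩
    | algebraMap c =>
      rintro u ⟨n, hn⟩
      exact ⟨n, by rw [← Algebra.smul_def]; exact hn.smul c⟩
    | add v w _ _ hv hw =>
      intro u hu
      obtain ⟨n, hn⟩ := hv u hu
      obtain ⟨m, hm⟩ := hw u hu
      exact ⟨max n m, by
        rw [add_mul]; exact Filt.add (hn.mono_le (le_max_left _ _)) (hm.mono_le (le_max_right _ _))⟩
    | mul v w _ _ hv hw =>
      intro u hu
      rw [mul_assoc]
      exact hv _ (hw u hu)
  have hv : z ∈ Algebra.adjoin K (Set.range (gen q)) := by rw [adjoin_gen]; trivial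
  have h1 : ∃ n, Filt q n (1 : UPlus q) := ⟨0, by
    have := Filt.one (q := q) 0 1
    rwa [map_one] at this⟩
  simpa using hall z hv 1 h1

lemma row_cases (i : Fin 2) (b : Bool) : i = row b ∨ i = row (!b) := by
  fin_cases i <;> cases b <;> simp [row]

lemma filt_coeff (hq : q ≠ 0) {n : ℕ} {u : UPlus q} (h : Filt q n u) : ∀ (k : ℕ) (i j : Fin 2),
    Filt q (n - k) ((Theta hq u).coeff k i j) ∧ (n < k → (Theta hq u).coeff k i j = 0) := by
  induction h with
  | one n c =>
    intro k i j
    rw [AlgHom.commutes, Polynomial.algebraMap_apply, coeff_C]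
    by_cases hk : k = 0
    · subst hk
      rw [if_pos rfl, Matrix.algebraMap_matrix_apply]
      refine ⟨?_, fun h => absurd h (by omega)⟩
      by_cases hij : i = j
      · rw [if_pos hij]; exact Filt.one _ _
      · rw [if_neg hij]; exact Filt.zero _
    · rw [if_neg hk]
      exact ⟨Filt.zero _, fun _ => rfl⟩
  | @gen_mul n b u _ ih =>
    intro k i j
    cases k with
    | zero =>
      rw [coeff_gen_mul_zero]
      refine ⟨?_, fun h => absurd h (by omega)⟩
      rcases row_cases i b with hi | hi
      · rw [hi, D_mul_row]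
        exact (Filt.gen_mul b (ih 0 (row b) j).1).smul _
      · rw [hi, D_mul_row']
        exact (Filt.gen_mul b (ih 0 (row (!b)) j).1).smul _
    | succ k =>
      rw [coeff_gen_mul_succ, Matrix.add_apply]
      have hD : ∀ (i : Fin 2) (s : K),
          Filt q (n + 1 - (k + 1)) (s • (gen q b * (Theta hq u).coeff (k + 1) i j)) ∧
          (n + 1 < k + 1 → s • (gen q b * (Theta hq u).coeff (k + 1) i j) = 0) := by
        intro i s
        by_cases hnk : n < k + 1
        · rw [(ih (k + 1) i j).2 hnk, mul_zero, smul_zero]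
          exact ⟨Filt.zero _, fun _ => rfl⟩
        · refine ⟨?_, fun h => absurd h (by omega)⟩
          have h1 := (ih (k + 1) i j).1
          have h2 : n + 1 - (k + 1) = (n - (k + 1)) + 1 := by omega
          rw [h2]
          exact (Filt.gen_mul b h1).smul s
      rcases row_cases i b with hi | hi
      · rw [hi, D_mul_row, E_mul_row]
        have h1 := hD (row b) (ds q b)
        have h2 := ih k (row (!b)) j
        have h3 : n + 1 - (k + 1) = n - k := by omega
        constructor
        · apply Filt.add h1.1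
          rw [h3]; exact h2.1
        · intro h
          rw [h1.2 h, h2.2 (by omega), add_zero]
      · rw [hi, D_mul_row', E_mul_row', add_zero]
        exact hD _ _
  | add _ _ ihu ihv =>
    intro k i j
    rw [map_add, coeff_add, Matrix.add_apply]
    exact ⟨Filt.add (ihu k i j).1 (ihv k i j).1,
      fun h => by rw [(ihu k i j).2 h, (ihv k i j).2 h, add_zero]⟩
  | @mono n u _ ih =>
    intro k i j
    exact ⟨((ih k i j).1).mono_le (by omega), fun h => (ih k i j).2 (by omega)⟩

/-- all coefficients of `Θ z` are central scalar matrices if `z` is central -/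
def Good (q : K) (Z : Matrix (Fin 2) (Fin 2) (UPlus q)) : Prop :=
  Z 0 1 = 0 ∧ Z 1 0 = 0 ∧ Z 1 1 = Z 0 0 ∧ ∀ b, gen q b * Z 0 0 = Z 0 0 * gen q b

lemma smul_eq_zero' {c : K} (hc : c ≠ 0) {u : UPlus q} (h : c • u = 0) : u = 0 := by
  have := congrArg (fun v => c⁻¹ • v) h
  simpa [smul_smul, hc] using this

lemma good_coeff (hq : q ≠ 0) (hq' : ∀ n : ℕ, 0 < n → q ^ n ≠ 1) {z : UPlus q}
    (hz : ∀ b, gen q b * z = z * gen q b) (k : ℕ) : Good q ((Theta hq z).coeff k) := by
  have hq2 : q ^ 2 ≠ 0 := pow_ne_zero 2 hq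
  have h1q : (1 : K) + q ^ 2 ≠ 0 := by
    intro h
    have h1 : q ^ 2 = -1 := by linear_combination h
    have h2 : q ^ 4 = 1 := by
      calc q ^ 4 = (q ^ 2) ^ 2 := by ring
        _ = 1 := by rw [h1]; ring
    exact hq' 4 (by norm_num) h2
  -- commutation relations for coefficients
  have hc0 : ∀ b, D q b * (Theta hq z).coeff 0 = (Theta hq z).coeff 0 * D q b := by
    intro b
    rw [← coeff_gen_mul_zero, ← coeff_mul_gen_zero, hz]
  have hcs : ∀ b k, D q b * (Theta hq z).coeff (k + 1) + E q b * (Theta hq z).coeff k =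
      (Theta hq z).coeff (k + 1) * D q b + (Theta hq z).coeff k * E q b := by
    intro b k
    rw [← coeff_gen_mul_succ, ← coeff_mul_gen_succ, hz]
  -- the key step: if `Z'` (next coefficient) is good then `Z` is scalar
  have step1 : ∀ Z Z' : Matrix (Fin 2) (Fin 2) (UPlus q), Good q Z' →
      (∀ b, D q b * Z' + E q b * Z = Z' * D q b + Z * E q b) →
      Z 0 1 = 0 ∧ Z 1 0 = 0 ∧ Z 1 1 = Z 0 0 := by
    intro Z Z' hG h
    obtain ⟨g1, g2, g3, g4⟩ := hG
    have hx := h true
    have hy := h false
    have x00 := congrFun (congrFun hx 0) 0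
    have x10 := congrFun (congrFun hx 1) 0
    have y00 := congrFun (congrFun hy 0) 0
    simp only [Matrix.add_apply, Matrix.mul_apply, Fin.sum_univ_two, D, E] at x00 x10 y00
    simp [g1, g2, g3] at x00 x10 y00
    refine ⟨?_, ?_, ?_⟩
    · rw [g4 true] at x00
      simpa using x00
    · rw [g4 false] at y00
      simpa using y00
    · exact x10.symm
  -- second step: a scalar coefficient is central
  have step2 : ∀ Z Y : Matrix (Fin 2) (Fin 2) (UPlus q), Z 0 1 = 0 → Z 1 0 = 0 → Z 1 1 = Z 0 0 →
      (∀ b, D q b * Z + E q b * Y = Z * D q b + Y * E q b) →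
      ∀ b, gen q b * Z 0 0 = Z 0 0 * gen q b := by
    intro Z Y g1 g2 g3 h b
    cases b
    · have hy := h false
      have y00 := congrFun (congrFun hy 0) 0
      have y11 := congrFun (congrFun hy 1) 1
      simp only [Matrix.add_apply, Matrix.mul_apply, Fin.sum_univ_two, D, E] at y00 y11
      simp [g1, g2, g3] at y00 y11
      -- y00 : y α + Y10 = α y ; y11 : q⁻² y α = α q⁻² y + Y10
      have e1 : Y 1 0 = Z 0 0 * gen q false - gen q false * Z 0 0 := by
        rw [← y00]; abel
      rw [e1] at y11
      have e2 : (1 + q ^ 2) • (gen q false * Z 0 0 - Z 0 0 * gen q false) = 0 := by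
        have := congrArg (fun v => (q ^ 2) • v) y11
        simp only [smul_add, smul_sub, smul_smul, mul_inv_cancel₀ hq2, one_smul] at this
        rw [add_smul, one_smul, smul_sub, ← sub_eq_zero.2 this]
        abel
      exact sub_eq_zero.1 (smul_eq_zero' h1q e2)
    · have hx := h true
      have x00 := congrFun (congrFun hx 0) 0
      have x11 := congrFun (congrFun hx 1) 1
      simp only [Matrix.add_apply, Matrix.mul_apply, Fin.sum_univ_two, D, E] at x00 x11
      simp [g1, g2, g3] at x00 x11
      have e1 : Y 0 1 = gen q true * Z 0 0 - Z 0 0 * gen q true := by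
        rw [x00]; abel
      rw [e1] at x11
      have e2 : (1 + q ^ 2) • (gen q true * Z 0 0 - Z 0 0 * gen q true) = 0 := by
        rw [add_smul, one_smul, smul_sub]
        have := sub_eq_zero.2 x11
        rw [← this]; abel
      exact sub_eq_zero.1 (smul_eq_zero' h1q e2)
  have good0 : Good q (0 : Matrix (Fin 2) (Fin 2) (UPlus q)) := by
    refine ⟨rfl, rfl, rfl, fun b => by simp⟩
  -- descending induction
  have hstep : ∀ k, Good q ((Theta hq z).coeff (k + 1)) → Good q ((Theta hq z).coeff k) := by
    intro k hG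
    obtain ⟨g1, g2, g3⟩ := step1 _ _ hG (fun b => hcs b k)
    refine ⟨g1, g2, g3, ?_⟩
    cases k with
    | zero =>
      apply step2 _ 0 g1 g2 g3
      intro b
      rw [mul_zero, zero_mul, add_zero, add_zero]
      exact hc0 b
    | succ k => exact step2 _ _ g1 g2 g3 (fun b => hcs b k)
  by_contra hk
  have hall : ∀ j, ¬ Good q ((Theta hq z).coeff (k + j)) := by
    intro j
    induction j with
    | zero => exact hk
    | succ j ih => exact fun h => ih (hstep _ h)
  apply hall ((Theta hq z).natDegree + 1)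
  rw [coeff_eq_zero_of_natDegree_lt (by omega)]
  exact good0


/-- the two-dimensional representation `ρ_τ` on generators -/
def rhoGen (τ : K) (b : Bool) : Matrix (Fin 2) (Fin 2) K :=
  if b then !![0, 0; τ, 0] else !![0, τ; 0, 0]

lemma serre_rhoGen (q τ : K) (b : Bool) : serre q (rhoGen τ b) (rhoGen τ (!b)) = 0 := by
  have h : rhoGen τ b * rhoGen τ b = 0 := by
    cases b <;> ext i j <;> fin_cases i <;> fin_cases j <;>
      simp [rhoGen, Matrix.mul_apply, Fin.sum_univ_two]
  have h2 : rhoGen τ b ^ 2 = 0 := by rw [pow_two, h]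
  have h3 : rhoGen τ b ^ 3 = 0 := by rw [pow_succ, h2, zero_mul]
  simp [serre, h2, h3]

/-- the two-dimensional representation -/
noncomputable def rho (q τ : K) : UPlus q →ₐ[K] Matrix (Fin 2) (Fin 2) K :=
  lift q (rhoGen τ) (serre_rhoGen q τ)

lemma rho_gen (q τ : K) (b : Bool) : rho q τ (gen q b) = rhoGen τ b := by
  unfold rho; rw [lift_gen]

/-- evaluate `Θ` at the central parameter `t`, applying `f` to the entries -/
noncomputable def evT (hq : q ≠ 0) {R : Type*} [Ring R] [Algebra K R] (f : UPlus q →ₐ[K] R)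
    (t : K) : UPlus q →+* Matrix (Fin 2) (Fin 2) R :=
  (Polynomial.eval₂RingHom' (f.mapMatrix (m := Fin 2)).toRingHom
    (algebraMap K (Matrix (Fin 2) (Fin 2) R) t)
    (fun _ => (Algebra.commutes t _).symm)).comp (Theta hq).toRingHom

lemma evT_apply (hq : q ≠ 0) {R : Type*} [Ring R] [Algebra K R] (f : UPlus q →ₐ[K] R) (t : K)
    (u : UPlus q) : evT hq f t u =
      (Theta hq u).eval₂ (f.mapMatrix (m := Fin 2)).toRingHom
        (algebraMap K (Matrix (Fin 2) (Fin 2) R) t) := rfl

lemma evT_gen (hq : q ≠ 0) {R : Type*} [Ring R] [Algebra K R] (f : UPlus q →ₐ[K] R) (t : K)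
    (b : Bool) : evT hq f t (gen q b) = (D q b).map f + t • (E q b).map f := by
  rw [evT_apply, Theta_gen, eval₂_add, eval₂_C, eval₂_mul_X, eval₂_C, ← Algebra.commutes,
    ← Algebra.smul_def]
  rfl

lemma evT_algebraMap (hq : q ≠ 0) {R : Type*} [Ring R] [Algebra K R] (f : UPlus q →ₐ[K] R) (t : K)
    (c : K) : evT hq f t (algebraMap K _ c) = algebraMap K _ c := by
  rw [evT_apply, AlgHom.commutes, Polynomial.algebraMap_apply, eval₂_C]
  exact AlgHom.commutes (f.mapMatrix (m := Fin 2)) c

lemma gen_induction {P : UPlus q → Prop} (hgen : ∀ b, P (gen q b))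
    (hc : ∀ c : K, P (algebraMap K _ c)) (hadd : ∀ u v, P u → P v → P (u + v))
    (hmul : ∀ u v, P u → P v → P (u * v)) (u : UPlus q) : P u := by
  have hu : u ∈ Algebra.adjoin K (Set.range (gen q)) := by rw [adjoin_gen]; trivial
  induction hu using Algebra.adjoin_induction with
  | mem v hv => obtain ⟨b, rfl⟩ := hv; exact hgen b
  | algebraMap c => exact hc c
  | add v w _ _ hv hw => exact hadd v w hv hw
  | mul v w _ _ hv hw => exact hmul v w hv hw

lemma evT_aug (hq : q ≠ 0) (τ : K) (u : UPlus q) : evT hq (aug q) τ u = rho q τ u := by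
  induction u using gen_induction with
  | hgen b =>
    rw [evT_gen, rho_gen]
    cases b <;> ext i j <;> fin_cases i <;> fin_cases j <;> simp [D, E, rhoGen]
  | hc c => rw [evT_algebraMap, AlgHom.commutes]
  | hadd u v hu hv => rw [map_add, map_add, hu, hv]
  | hmul u v hu hv => rw [map_mul, map_mul, hu, hv]

/-- the singlet -/
def Sg (q : K) : Matrix (Fin 2) (Fin 2) (Matrix (Fin 2) (Fin 2) K) :=
  !![!![0, 0; q, 0], 0; !![-1, 0; 0, 0], 0]

lemma evT_singlet (hq : q ≠ 0) (τ : K) (u : UPlus q) :
    evT hq (rho q τ) (q * τ) u * Sg q = aug q u • Sg q := by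
  induction u using gen_induction with
  | hgen b =>
    rw [evT_gen, aug_gen, zero_smul]
    cases b
    · ext i j k l
      fin_cases i <;> fin_cases j <;> fin_cases k <;> fin_cases l <;>
        simp [D, E, Sg, rho_gen, rhoGen, Matrix.mul_apply, Fin.sum_univ_two] <;> ring
    · ext i j k l
      fin_cases i <;> fin_cases j <;> fin_cases k <;> fin_cases l <;>
        simp [D, E, Sg, rho_gen, rhoGen, Matrix.mul_apply, Fin.sum_univ_two] <;> ring
  | hc c => rw [evT_algebraMap, AlgHom.commutes, ← Algebra.smul_def]; rfl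
  | hadd u v hu hv => rw [map_add, map_add, add_mul, hu, hv, add_smul]
  | hmul u v hu hv =>
    rw [map_mul, map_mul, mul_assoc, hv, mul_smul_comm, hu, smul_smul, mul_comm]

end Pool.Agent.MP_cafee0_al
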