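import Pool.Agent.MP_cafee0_al.Words

/-! Structure of irreducible run-length lists, and the map removing one letter from each run. -/

namespace Pool.Agent.MP_cafee0_al

lemma Tri_tail {a : ℕ} {l : List ℕ} (h : Tri (a :: l)) : Tri l := by
  match l, h with
  | [], _ => trivial
  | [_], _ => trivial
  | _ :: _ :: _, h => exact h.2

lemma all_one_aux : ∀ (l : List ℕ) (a : ℕ), 1 ≤ a → Tri (a :: 1 :: l) → (∀ i ∈ l, 1 ≤ i) →
    l = List.replicate l.length 1 := by
  intro l
  induction l with
  | nil => intro a _ _ _; rfl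
  | cons c l ih =>
    intro a ha hT hpos
    have hc1 : 1 ≤ c := hpos c (by simp)
    have hc : c = 1 := by
      have := hT.1
      omega
    subst hc
    rw [List.length_cons, List.replicate_succ]
    congr 1
    exact ih 1 le_rfl hT.2 fun i hi => hpos i (List.mem_cons_of_mem _ hi)

lemma struct_big : ∀ (l : List ℕ) (a : ℕ), 2 ≤ a → Tri (a :: l) → (∀ i ∈ l, 1 ≤ i) →
    ∃ (m : List ℕ) (k : ℕ), a :: l = m ++ List.replicate k 1 ∧ (∀ i ∈ m, 2 ≤ i) ∧ m ≠ [] := by
  intro l
  induction l with
  | nil => intro a ha _ _; exact ⟨[a], 0, by simp, by simpa using ha, by simp⟩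
  | cons b l ih =>
    intro a ha hT hpos
    have hb1 : 1 ≤ b := hpos b (by simp)
    by_cases hb : b = 1
    · subst hb
      have h := all_one_aux l a (by omega) hT fun i hi => hpos i (List.mem_cons_of_mem _ hi)
      refine ⟨[a], l.length + 1, ?_, by simpa using ha, by simp⟩
      rw [List.replicate_succ, ← h]; rfl
    · obtain ⟨m, k, h1, h2, _⟩ := ih b (by omega) (Tri_tail hT)
        fun i hi => hpos i (List.mem_cons_of_mem _ hi)
      refine ⟨a :: m, k, by rw [h1]; rfl, ?_, by simp⟩
      intro i hi
      rcases List.mem_cons.1 hi with h | h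
      · omega
      · exact h2 i h

/-- the three shapes of an irreducible list -/
lemma struct {l : List ℕ} (h : Irr l) :
    (l = List.replicate l.length 1) ∨
    (∃ (m : List ℕ) (k : ℕ), l = m ++ List.replicate k 1 ∧ (∀ i ∈ m, 2 ≤ i) ∧ m ≠ []) ∨
    (∃ (m : List ℕ) (k : ℕ), l = 1 :: (m ++ List.replicate k 1) ∧ (∀ i ∈ m, 2 ≤ i) ∧ m ≠ []) := by
  obtain ⟨hT, hpos⟩ := h
  match l, hT, hpos with
  | [], _, _ => left; rfl
  | [a], hT, hpos =>
    have ha : 1 ≤ a := hpos a (by simp)
    by_cases ha1 : a = 1
    · left; subst ha1; rfl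
    · right; left
      exact struct_big [] a (by omega) hT (by simp)
  | a :: b :: l, hT, hpos =>
    have ha : 1 ≤ a := hpos a (by simp)
    have hb : 1 ≤ b := hpos b (by simp)
    by_cases ha1 : a = 1
    · subst ha1
      by_cases hb1 : b = 1
      · subst hb1
        left
        have := all_one_aux l 1 le_rfl hT fun i hi => hpos i (by simp [hi])
        rw [List.length_cons, List.length_cons, List.replicate_succ, List.replicate_succ, ← this]
      · right; right
        obtain ⟨m, k, h1, h2, h3⟩ := struct_big l b (by omega) (Tri_tail hT)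
          fun i hi => hpos i (by simp [hi])
        exact ⟨m, k, by rw [h1], h2, h3⟩
    · right; left
      exact struct_big (b :: l) a (by omega) hT fun i hi => hpos i (List.mem_cons_of_mem _ hi)

/-- subtract one from each run length -/
def prd (l : List ℕ) : List ℕ := l.map (fun i => i - 1)

/-- subtract one and drop zeros -/
def trim (l : List ℕ) : List ℕ := (prd l).filter (fun i => i ≠ 0)

lemma prd_append (l l' : List ℕ) : prd (l ++ l') = prd l ++ prd l' := by simp [prd]

lemma prd_ones (k : ℕ) : prd (List.replicate k 1) = List.replicate k 0 := by simp [prd]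

lemma trim_append (l l' : List ℕ) : trim (l ++ l') = trim l ++ trim l' := by
  simp [trim, prd_append]

lemma trim_ones (k : ℕ) : trim (List.replicate k 1) = [] := by
  rw [trim, prd_ones]
  simp

lemma trim_big {m : List ℕ} (h : ∀ i ∈ m, 2 ≤ i) : trim m = prd m := by
  rw [trim, List.filter_eq_self]
  intro i hi
  simp only [prd, List.mem_map] at hi
  obtain ⟨j, hj, rfl⟩ := hi
  have := h j hj
  simp; omega

lemma Tri_prd {m : List ℕ} (h : Tri m) (hpos : ∀ i ∈ m, 1 ≤ i) : Tri (prd m) := by
  induction m with
  | nil => trivial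
  | cons a l ih =>
    match l, h, hpos, ih with
    | [], _, _, _ => trivial
    | [_], _, _, _ => trivial
    | b :: c :: l, h, hpos, ih =>
      have ha : 1 ≤ a := hpos a (by simp)
      have hb : 1 ≤ b := hpos b (by simp)
      have hc : 1 ≤ c := hpos c (by simp)
      refine ⟨?_, ih h.2 fun i hi => hpos i (List.mem_cons_of_mem _ hi)⟩
      have := h.1
      change ¬ (b - 1 ≤ a - 1 ∧ b - 1 < c - 1)
      omega

lemma Tri_prefix {m l : List ℕ} (h : Tri (m ++ l)) : Tri m := by
  induction m with
  | nil => trivial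
  | cons a m ih =>
    match m, h, ih with
    | [], _, _ => trivial
    | [_], _, _ => trivial
    | b :: c :: m, h, ih => exact ⟨h.1, ih h.2⟩

lemma Irr_prd_big {m : List ℕ} (hT : Tri m) (h : ∀ i ∈ m, 2 ≤ i) : Irr (prd m) := by
  refine ⟨Tri_prd hT fun i hi => (by have := h i hi; omega), ?_⟩
  intro i hi
  simp only [prd, List.mem_map] at hi
  obtain ⟨j, hj, rfl⟩ := hi
  have := h j hj
  omega

lemma prd_ne_nil {m : List ℕ} (h : m ≠ []) : prd m ≠ [] := by simpa [prd] using h

lemma prd_inj {m m' : List ℕ} (h : ∀ i ∈ m, 2 ≤ i) (h' : ∀ i ∈ m', 2 ≤ i) (heq : prd m = prd m') :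
    m = m' := by
  induction m generalizing m' with
  | nil =>
    cases m' with
    | nil => rfl
    | cons a m' => simp [prd] at heq
  | cons a m ih =>
    cases m' with
    | nil => simp [prd] at heq
    | cons a' m' =>
      simp only [prd, List.map_cons, List.cons.injEq] at heq
      have h1 := h a (by simp)
      have h2 := h' a' (by simp)
      have h3 : a = a' := by omega
      subst h3
      congr 1
      exact ih (fun i hi => h i (List.mem_cons_of_mem _ hi))
        (fun i hi => h' i (List.mem_cons_of_mem _ hi)) heq.2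

/-- the word obtained by removing one letter from each run (first component: type of the first run,
normalised to `true` for the empty word) -/
def minusw (w : Bool × List ℕ) : Bool × List ℕ :=
  (if trim w.2 = [] then true else if w.2.head? = some 1 then !w.1 else w.1, trim w.2)

lemma trim_caseB {m : List ℕ} {k : ℕ} (h : ∀ i ∈ m, 2 ≤ i) :
    trim (m ++ List.replicate k 1) = prd m := by
  rw [trim_append, trim_ones, List.append_nil, trim_big h]

lemma trim_caseC {m : List ℕ} {k : ℕ} (h : ∀ i ∈ m, 2 ≤ i) :
    trim (1 :: (m ++ List.replicate k 1)) = prd m := by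
  have : (1 :: (m ++ List.replicate k 1)) = List.replicate 1 1 ++ (m ++ List.replicate k 1) := rfl
  rw [this, trim_append, trim_ones, trim_caseB h]; rfl

lemma minusw_caseA (b : Bool) (k : ℕ) : minusw (b, List.replicate k 1) = (true, []) := by
  simp [minusw, trim_ones]

lemma minusw_caseB (b : Bool) {m : List ℕ} {k : ℕ} (h : ∀ i ∈ m, 2 ≤ i) (hm : m ≠ []) :
    minusw (b, m ++ List.replicate k 1) = (b, prd m) := by
  unfold minusw
  simp only
  rw [trim_caseB h, if_neg (prd_ne_nil hm), if_neg]
  cases m with
  | nil => exact absurd rfl hm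
  | cons a m =>
    have := h a (by simp)
    simp; omega

lemma minusw_caseC (b : Bool) {m : List ℕ} {k : ℕ} (h : ∀ i ∈ m, 2 ≤ i) (hm : m ≠ []) :
    minusw (b, 1 :: (m ++ List.replicate k 1)) = (!b, prd m) := by
  unfold minusw
  simp only
  rw [trim_caseC h, if_neg (prd_ne_nil hm), if_pos (by simp)]

lemma Irr_minusw {w : Bool × List ℕ} (h : Irr w.2) :
    Irr (minusw w).2 ∧ ((minusw w).2 = [] → (minusw w).1 = true) := by
  obtain ⟨b, l⟩ := w
  simp only at h
  have hT := h.1
  rcases struct h with hl | ⟨m, k, hl, hm, hm'⟩ | ⟨m, k, hl, hm, hm'⟩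
  · rw [hl, minusw_caseA]
    exact ⟨⟨trivial, by simp⟩, fun _ => rfl⟩
  · subst hl
    rw [minusw_caseB b hm hm']
    exact ⟨Irr_prd_big (Tri_prefix hT) hm, fun h => absurd h (prd_ne_nil hm')⟩
  · subst hl
    rw [minusw_caseC b hm hm']
    exact ⟨Irr_prd_big (Tri_prefix (Tri_tail hT)) hm, fun h => absurd h (prd_ne_nil hm')⟩

lemma minusw_inj {b : Bool} {l l' : List ℕ} (h : Irr l) (h' : Irr l') (hlen : l.length = l'.length)
    (heq : minusw (b, l) = minusw (b, l')) : l = l' := by
  rcases struct h with hl | ⟨m, k, hl, hm, hm'⟩ | ⟨m, k, hl, hm, hm'⟩ <;>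
  rcases struct h' with hl' | ⟨n, j, hl', hn, hn'⟩ | ⟨n, j, hl', hn, hn'⟩
  · rw [hl, hl', hlen]
  · rw [hl, hl', minusw_caseA, minusw_caseB b hn hn'] at heq
    exact absurd (congrArg Prod.snd heq).symm (prd_ne_nil hn')
  · rw [hl, hl', minusw_caseA, minusw_caseC b hn hn'] at heq
    exact absurd (congrArg Prod.snd heq).symm (prd_ne_nil hn')
  · rw [hl, hl', minusw_caseA, minusw_caseB b hm hm'] at heq
    exact absurd (congrArg Prod.snd heq) (prd_ne_nil hm')
  · subst hl; subst hl'
    rw [minusw_caseB b hm hm', minusw_caseB b hn hn'] at heq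
    have h1 := prd_inj hm hn (congrArg Prod.snd heq)
    subst h1
    simp at hlen
    rw [hlen]
  · subst hl; subst hl'
    rw [minusw_caseB b hm hm', minusw_caseC b hn hn'] at heq
    have := congrArg Prod.fst heq
    simp at this
  · rw [hl, hl', minusw_caseA, minusw_caseC b hm hm'] at heq
    exact absurd (congrArg Prod.snd heq) (prd_ne_nil hm')
  · subst hl; subst hl'
    rw [minusw_caseC b hm hm', minusw_caseB b hn hn'] at heq
    have := congrArg Prod.fst heq
    simp at this
  · subst hl; subst hl'
    rw [minusw_caseC b hm hm', minusw_caseC b hn hn'] at heq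
    have h1 := prd_inj hm hn (congrArg Prod.snd heq)
    subst h1
    simp at hlen
    rw [hlen]

variable {K : Type*} [Field K] {U : Type*} [Ring U] [Algebra K U]

lemma mon_zeros (g : Bool → U) (b : Bool) (k : ℕ) : mon g b (List.replicate k 0) = 1 := by
  induction k generalizing b with
  | zero => rfl
  | succ k ih => simp [List.replicate_succ, mon, ih]

lemma mon_prd (g : Bool → U) {w : Bool × List ℕ} (h : Irr w.2) :
    mon g w.1 (prd w.2) = mon g (minusw w).1 (minusw w).2 := by
  obtain ⟨b, l⟩ := w
  simp only at h ⊢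
  rcases struct h with hl | ⟨m, k, hl, hm, hm'⟩ | ⟨m, k, hl, hm, hm'⟩
  · rw [hl, minusw_caseA, prd_ones, mon_zeros]; rfl
  · subst hl
    rw [minusw_caseB b hm hm', prd_append, prd_ones, mon_append, mon_zeros, mul_one]
  · subst hl
    rw [minusw_caseC b hm hm']
    have : prd (1 :: (m ++ List.replicate k 1)) = 0 :: (prd m ++ List.replicate k 0) := by
      rw [← prd_ones, ← prd_append]; rfl
    rw [this, mon, pow_zero, one_mul, mon_append, mon_zeros, mul_one]

lemma sum_trim_lt {l : List ℕ} (h : ∀ i ∈ l, 1 ≤ i) (hl : l ≠ []) : (trim l).sum < l.sum := by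
  have h1 : ∀ l : List ℕ, (trim l).sum ≤ (prd l).sum := by
    intro l
    induction l with
    | nil => simp [trim, prd]
    | cons a l ih =>
      simp only [trim, prd, List.map_cons, List.sum_cons] at ih ⊢
      by_cases h0 : a - 1 = 0
      · rw [List.filter_cons_of_neg (by simpa using h0)]; omega
      · rw [List.filter_cons_of_pos (by simpa using h0), List.sum_cons]; omega
  have h2 : ∀ l : List ℕ, (∀ i ∈ l, 1 ≤ i) → (prd l).sum + l.length = l.sum := by
    intro l
    induction l with
    | nil => simp [prd]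
    | cons a l ih =>
      intro h
      have h3 := ih fun i hi => h i (List.mem_cons_of_mem _ hi)
      have h4 := h a (by simp)
      simp only [prd, List.map_cons, List.sum_cons, List.length_cons] at h3 ⊢
      omega
  have h3 := h1 l
  have h4 := h2 l h
  have h5 : 0 < l.length := List.length_pos_of_ne_nil hl
  omega

end Pool.Agent.MP_cafee0_al
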