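import Pool.Agent.MP_cafee0_al.Top
import Pool.Agent.MP_cafee0_al.Struct

/-! Linear independence of the irreducible words, and nondegeneracy: an element on which all higher
coefficients of `Θ` vanish is a scalar. -/

namespace Pool.Agent.MP_cafee0_al

open Polynomial

variable {K : Type*} [Field K] {q : K}

/-- the word as an element of `U⁺` -/
noncomputable def wd (q : K) (w : Bool × List ℕ) : UPlus q := mon (gen q) w.1 w.2

lemma Dl_mon_lt (hq : q ≠ 0) (l : List ℕ) : ∀ (b b' : Bool) (k : ℕ), l.length < k + 1 →
    Dl hq b (k + 1) (mon (gen q) b' l) = 0 := by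
  induction l with
  | nil => intro b b' k _; exact Dl_one_succ hq b k
  | cons i l ih =>
    intro b b' k hk
    simp only [List.length_cons] at hk
    simp only [mon]
    by_cases hb : b = b'
    · subst hb
      obtain ⟨k', rfl⟩ : ∃ k', k = k' + 1 := ⟨k - 1, by omega⟩
      rw [Dl_pow_succ, ih b (!b) (k' + 1) (by omega), ih (!b) (!b) k' (by omega)]
      simp
    · have hb' : b = !b' := by cases b <;> cases b' <;> simp_all
      subst hb'
      rw [Dl_pow', ih (!b') (!b') k (by omega)]
      simp

lemma Dl_mon_eq_other (hq : q ≠ 0) (l : List ℕ) (b : Bool) (k : ℕ) (hk : l.length = k + 1) :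
    Dl hq (!b) (k + 1) (mon (gen q) b l) = 0 := by
  cases l with
  | nil => simp at hk
  | cons i l =>
    simp only [List.length_cons] at hk
    simp only [mon]
    rw [Dl_pow', Dl_mon_lt hq l (!b) (!b) k (by omega)]
    simp

/-- product of `q`-integers attached to a word -/
noncomputable def qprod (q : K) : Bool → List ℕ → K
  | _, [] => 1
  | b, i :: l => qi q b i * qprod q (!b) l

lemma qprod_ne_zero (hq : q ≠ 0) (hq' : ∀ n : ℕ, 0 < n → q ^ n ≠ 1) (l : List ℕ) :
    ∀ b, (∀ i ∈ l, 1 ≤ i) → qprod q b l ≠ 0 := by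
  induction l with
  | nil => intro b _; exact one_ne_zero
  | cons i l ih =>
    intro b h
    exact mul_ne_zero (qi_ne_zero hq hq' b (h i (by simp)))
      (ih _ fun j hj => h j (List.mem_cons_of_mem _ hj))

lemma Dl_mon_top (hq : q ≠ 0) (l : List ℕ) : ∀ (b : Bool),
    Dl hq b l.length (mon (gen q) b l) = qprod q b l • mon (gen q) b (prd l) := by
  induction l with
  | nil => intro b; simp [mon, prd, qprod, Dl_one_zero]
  | cons i l ih =>
    intro b
    simp only [mon, List.length_cons]
    rw [Dl_pow_succ, Dl_mon_lt hq l b (!b) l.length (by omega), ih]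
    simp only [mul_zero, smul_zero, zero_add, mul_smul_comm, smul_smul, qprod, prd, List.map_cons,
      mon]

theorem core (hq : q ≠ 0) (hq' : ∀ n : ℕ, 0 < n → q ^ n ≠ 1) : ∀ (N : ℕ)
    (s : Finset (Bool × List ℕ)) (w : Bool × List ℕ → Bool × List ℕ) (c : Bool × List ℕ → K),
    Set.InjOn w s →
    (∀ i ∈ s, Irr (w i).2 ∧ ((w i).2 = [] → (w i).1 = true) ∧ (w i).2.sum < N) →
    (∀ b k, Dl hq b (k + 1) (∑ i ∈ s, c i • wd q (w i)) = 0) →
    ∀ i ∈ s, (w i).2 ≠ [] → c i = 0 := by
  intro N
  induction N with
  | zero => intro s w c _ h _ i hi _; exact absurd (h i hi).2.2 (by omega)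
  | succ N ih =>
    intro s w c hinj hw hD i0 hi0 hne
    by_contra hc0
    classical
    set s' := s.filter (fun i => (w i).2 ≠ [] ∧ c i ≠ 0) with hs'
    have hs'ne : s'.Nonempty := ⟨i0, by simp [hs', hi0, hne, hc0]⟩
    obtain ⟨i1, hi1, hmax⟩ := Finset.exists_max_image s' (fun i => (w i).2.length) hs'ne
    have hi1' := (Finset.mem_filter.1 hi1)
    obtain ⟨k, hk⟩ : ∃ k, (w i1).2.length = k + 1 :=
      ⟨(w i1).2.length - 1, by have := List.length_pos_of_ne_nil hi1'.2.1; omega⟩
    set b := (w i1).1 with hb
    set T := s'.filter (fun i => (w i).2.length = k + 1 ∧ (w i).1 = b) with hT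
    have hTs : ∀ i ∈ T, i ∈ s := fun i hi =>
      (Finset.mem_filter.1 (Finset.mem_filter.1 hi).1).1
    -- apply `Dl` to the sum
    have h1 : ∑ i ∈ T, (c i * qprod q b (w i).2) • wd q (minusw (w i)) = 0 := by
      have h2 := hD b k
      rw [map_sum] at h2
      rw [← h2]
      have hTsub : T ⊆ s := fun i hi => hTs i hi
      rw [← Finset.sum_subset hTsub]
      · apply Finset.sum_congr rfl
        intro i hi
        have hi' := (Finset.mem_filter.1 hi).2
        rw [map_smul, mul_smul]
        congr 1
        unfold wd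
        rw [← mon_prd (gen q) (hw i (hTs i hi)).1, ← hi'.1, hi'.2, Dl_mon_top]
      · intro i hi hiT
        rw [map_smul]
        by_cases hci : c i = 0
        · rw [hci, zero_smul]
        by_cases hwi : (w i).2 = []
        · have : wd q (w i) = 1 := by unfold wd; rw [hwi]; rfl
          rw [this, Dl_one_succ, smul_zero]
        have his' : i ∈ s' := by simp [hs', hi, hwi, hci]
        have hle : (w i).2.length ≤ k + 1 := by rw [← hk]; exact hmax i his'
        rcases hle.lt_or_eq with hlt | heq
        · unfold wd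
          rw [Dl_mon_lt hq _ _ _ _ hlt, smul_zero]
        · have hne' : (w i).1 ≠ b := by
            intro h
            exact hiT (by simp [hT, his', heq, h])
          have hb' : b = !(w i).1 := by
            revert hne'
            cases (w i).1 <;> cases b <;> simp
          unfold wd
          rw [hb', Dl_mon_eq_other hq _ _ _ heq, smul_zero]
    -- the new index map is injective on `T`
    have hinj' : Set.InjOn (fun i => minusw (w i)) T := by
      intro i hi j hj hij
      have hi' := Finset.mem_filter.1 hi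
      have hj' := Finset.mem_filter.1 hj
      have e1 : w i = (b, (w i).2) := by rw [← hi'.2.2]
      have e2 : w j = (b, (w j).2) := by rw [← hj'.2.2]
      simp only at hij
      rw [e1, e2] at hij
      have h3 := minusw_inj (hw i (hTs i hi)).1 (hw j (hTs j hj)).1
        (by rw [hi'.2.1, hj'.2.1]) hij
      apply hinj (hTs i hi) (hTs j hj)
      rw [e1, e2, h3]
    have hIH := ih T (fun i => minusw (w i)) (fun i => c i * qprod q b (w i).2) hinj' (by
      intro i hi
      have h4 := hw i (hTs i hi)
      have h5 := Irr_minusw h4.1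
      refine ⟨h5.1, h5.2, ?_⟩
      have h6 : (w i).2 ≠ [] :=
        (Finset.mem_filter.1 (Finset.mem_filter.1 hi).1).2.1
      have h7 := sum_trim_lt h4.1.2 h6
      have h8 : (minusw (w i)).2 = trim (w i).2 := rfl
      rw [h8]
      have := h4.2.2
      omega) (by intro b' k'; rw [h1, map_zero])
    have hi1T : i1 ∈ T := by simp [hT, hi1, hk, hb]
    have hci1 : c i1 * qprod q b (w i1).2 ≠ 0 :=
      mul_ne_zero hi1'.2.2 (qprod_ne_zero hq hq' _ _ (hw i1 (hTs i1 hi1T)).1.2)
    by_cases h9 : (minusw (w i1)).2 = []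
    · -- all other terms vanish
      have h10 : ∑ i ∈ T, (c i * qprod q b (w i).2) • wd q (minusw (w i)) =
          (c i1 * qprod q b (w i1).2) • wd q (minusw (w i1)) := by
        apply Finset.sum_eq_single_of_mem i1 hi1T
        intro j hj hji
        by_cases h11 : (minusw (w j)).2 = []
        · exfalso
          apply hji
          apply hinj' hj hi1T
          have e1 := (Irr_minusw (hw j (hTs j hj)).1).2 h11
          have e2 := (Irr_minusw (hw i1 (hTs i1 hi1T)).1).2 h9
          simp only
          exact Prod.ext (by rw [e1, e2]) (by rw [h11, h9])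
        · rw [hIH j hj h11, zero_smul]
      rw [h1] at h10
      have h12 : wd q (minusw (w i1)) = 1 := by unfold wd; rw [h9]; rfl
      rw [h12] at h10
      have h13 := congrArg (aug q) h10
      rw [map_zero, map_smul, map_one, smul_eq_mul, mul_one] at h13
      exact hci1 h13.symm
    · exact hci1 (hIH i1 hi1T h9)

/-- nondegeneracy -/
theorem nondeg (hq : q ≠ 0) (hq' : ∀ n : ℕ, 0 < n → q ^ n ≠ 1) (z : UPlus q)
    (hz : ∀ b k, Dl hq b (k + 1) z = 0) : ∃ c : K, z = algebraMap K (UPlus q) c := by
  have hS := S_eq_top hq hq' (gen q) (serre_gen q) (adjoin_gen q)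
  have hset : {u | ∃ (b : Bool) (l : List ℕ), Irr l ∧ u = mon (gen q) b l} =
      wd q '' {w | Irr w.2 ∧ (w.2 = [] → w.1 = true)} := by
    ext u
    constructor
    · rintro ⟨b, l, hl, rfl⟩
      by_cases h : l = []
      · exact ⟨(true, []), ⟨by rw [← h]; exact hl, fun _ => rfl⟩, by subst h; rfl⟩
      · exact ⟨(b, l), ⟨hl, fun h' => absurd h' h⟩, rfl⟩
    · rintro ⟨w, hw, rfl⟩
      exact ⟨w.1, w.2, hw.1, rfl⟩
  have hz' : z ∈ Submodule.span K (wd q '' {w | Irr w.2 ∧ (w.2 = [] → w.1 = true)}) := by
    rw [← hset]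
    change z ∈ S K (gen q)
    rw [hS]; trivial
  rw [Finsupp.mem_span_image_iff_linearCombination] at hz'
  obtain ⟨c, hc, hcz⟩ := hz'
  rw [Finsupp.mem_supported] at hc
  rw [Finsupp.linearCombination_apply, Finsupp.sum] at hcz
  have hcore := core hq hq' (∑ w ∈ c.support, w.2.sum + 1) c.support id c
    (Set.injOn_id _) (by
      intro i hi
      refine ⟨(hc hi).1, (hc hi).2, ?_⟩
      have := Finset.single_le_sum (f := fun w : Bool × List ℕ => w.2.sum)
        (fun w _ => Nat.zero_le _) hi
      simp only [id] at this ⊢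
      omega) (by intro b k; simp only [id]; rw [hcz]; exact hz b k)
  refine ⟨c (true, []), ?_⟩
  rw [← hcz, Finset.sum_eq_single (true, [])]
  · rw [Algebra.algebraMap_eq_smul_one]; rfl
  · intro w hw hne
    have h1 : w.2 ≠ [] := by
      intro h
      apply hne
      exact Prod.ext ((hc hw).2 h) h
    rw [hcore w hw h1, zero_smul]
  · intro h
    rw [Finsupp.notMem_support_iff.1 h, zero_smul]

end Pool.Agent.MP_cafee0_al
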