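import Mathlib

namespace Pool.Agent.MP_cafee0_al

/-- The cubic `q`-Serre expression `u³ v - [3]_q u² v u + [3]_q u v u² - v u³`,
where `[3]_q = q² + 1 + q⁻²`. -/
def serre {K R : Type*} [Field K] [Ring R] [Algebra K R] (q : K) (u v : R) : R :=
  u ^ 3 * v - (q ^ 2 + 1 + (q ^ 2)⁻¹) • (u ^ 2 * v * u)
    + (q ^ 2 + 1 + (q ^ 2)⁻¹) • (u * v * u ^ 2) - v * u ^ 3

/-- The two defining relations, in the free algebra on two letters (`true` stands for `A`, `false`
for `A*`): the two `q`-Serre expressions are set equal to `0`. -/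
def Rel {K : Type*} [Field K] (q : K) (a b : FreeAlgebra K Bool) : Prop :=
  (a = serre q (FreeAlgebra.ι K true) (FreeAlgebra.ι K false) ∨
    a = serre q (FreeAlgebra.ι K false) (FreeAlgebra.ι K true)) ∧ b = 0

/-- `U⁺ = U_q(sl₂^)^{>0}`: the unital associative `K`-algebra with two generators `A`, `A*` subject
only to the two `q`-Serre relations. -/
abbrev UPlus {K : Type*} [Field K] (q : K) : Type _ := RingQuot (Rel q)

end Pool.Agent.MP_cafee0_al
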