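import Pool.Agent.MP_cafee0_al.Basic

/-! Higher order `q`-Serre relations, in any algebra with two elements `g, h` satisfying the cubic
one. -/

namespace Pool.Agent.MP_cafee0_al

open Polynomial

variable {K : Type*} [Field K] {U : Type*} [Ring U] [Algebra K U]

/-- `W Q g α β n u = ∏_{l<n} (α L_g - Q^l β R_g) u` -/
def W (Q : K) (g : U) (α β : K) : ℕ → U → U
  | 0, u => u
  | n + 1, u => α • (g * W Q g α β n u) - (Q ^ n * β) • (W Q g α β n u * g)

lemma W_zero (Q : K) (g : U) (α β : K) (n : ℕ) : W Q g α β n 0 = 0 := by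
  induction n with
  | zero => rfl
  | succ n ih => simp [W, ih]

lemma W_eq_zero_of_le {Q : K} {g : U} {α β : K} {n m : ℕ} {u : U} (h : W Q g α β n u = 0)
    (hnm : n ≤ m) : W Q g α β m u = 0 := by
  induction m, hnm using Nat.le_induction with
  | base => exact h
  | succ m _ ih => simp [W, ih]

lemma W_smul {Q : K} {g : U} {α β c : K} (n : ℕ) (u : U) :
    W Q g (c * α) (c * β) n u = c ^ n • W Q g α β n u := by
  induction n with
  | zero => simp [W]
  | succ n ih =>
    simp only [W, ih, mul_smul_comm, smul_mul_assoc, smul_sub, smul_smul]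
    congr 2
    · ring
    · ring

/-- the `q`-Vandermonde argument -/
lemma W_mul {Q : K} {g : U} {c d : K} (a b : U) (n : ℕ) (S : Submodule K U)
    (hS : ∀ k ≤ n, W Q g 1 c k a * W Q g c d (n - k) b ∈ S) :
    W Q g 1 d n (a * b) ∈ S := by
  induction n generalizing S with
  | zero => simpa [W] using hS 0 le_rfl
  | succ n ih =>
    -- the step operator as a linear map
    set T : U →ₗ[K] U := (LinearMap.mulLeft K g) - (Q ^ n * d) • (LinearMap.mulRight K g) with hT
    have hTapp : ∀ u, T u = g * u - (Q ^ n * d) • (u * g) := by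
      intro u; simp [hT]
    have h1 : W Q g 1 d (n + 1) (a * b) = T (W Q g 1 d n (a * b)) := by
      rw [hTapp]; simp [W]
    rw [h1]
    have h2 : W Q g 1 d n (a * b) ∈ S.comap T := by
      apply ih
      intro k hk
      rw [Submodule.mem_comap, hTapp]
      have e1 : n + 1 - k = (n - k) + 1 := by omega
      have h3 := hS k (by omega)
      have h4 := hS (k + 1) (by omega)
      have e2 : n + 1 - (k + 1) = n - k := by omega
      rw [e1] at h3
      rw [e2] at h4
      have h5 : g * (W Q g 1 c k a * W Q g c d (n - k) b) -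
          (Q ^ n * d) • (W Q g 1 c k a * W Q g c d (n - k) b * g) =
          W Q g 1 c (k + 1) a * W Q g c d (n - k) b +
            (Q ^ k) • (W Q g 1 c k a * W Q g c d (n - k + 1) b) := by
        simp only [W, one_smul, sub_mul, mul_sub, smul_sub, mul_smul_comm, smul_mul_assoc,
          smul_smul, mul_assoc]
        have e3 : Q ^ k * (Q ^ (n - k) * d) = Q ^ n * d := by
          rw [← mul_assoc, ← pow_add]; congr 2; omega
        rw [e3]
        abel
      rw [h5]
      exact S.add_mem h4 (S.smul_mem _ h3)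
    exact h2

/-- higher order `q`-Serre relations -/
lemma higher {q : K} (hq : q ≠ 0) {g h : U} (hs : serre q g h = 0) (i : ℕ) :
    W (q ^ 2) g 1 ((q ^ 2)⁻¹ ^ i) (2 * i + 1) (h ^ i) = 0 := by
  have hq2 : q ^ 2 ≠ 0 := pow_ne_zero 2 hq
  induction i with
  | zero => simp [W]
  | succ i ih =>
    rw [pow_succ h i]
    have key := W_mul (Q := q ^ 2) (g := g) (c := (q ^ 2)⁻¹ ^ i) (d := (q ^ 2)⁻¹ ^ (i + 1))
      (h ^ i) h (2 * (i + 1) + 1) ⊥ ?_
    · simpa using key
    · intro k hk
      rw [Submodule.mem_bot]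
      by_cases hk' : 2 * i + 1 ≤ k
      · rw [W_eq_zero_of_le ih hk', zero_mul]
      · have h3 : 3 ≤ 2 * (i + 1) + 1 - k := by omega
        have h1 : W (q ^ 2) g 1 ((q ^ 2)⁻¹) 3 h = 0 := by
          simp only [W, one_smul, pow_zero, one_mul, mul_sub, sub_mul, smul_sub, mul_smul_comm,
            smul_mul_assoc, smul_smul]
          rw [← hs, serre]
          simp only [pow_succ, pow_zero, one_mul, mul_assoc]
          match_scalars <;> field_simp <;> ring
        have h2 : W (q ^ 2) g ((q ^ 2)⁻¹ ^ i) ((q ^ 2)⁻¹ ^ (i + 1)) 3 h = 0 := by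
          have := W_smul (Q := q ^ 2) (g := g) (α := 1) (β := (q ^ 2)⁻¹) (c := (q ^ 2)⁻¹ ^ i) 3 h
          rw [h1, smul_zero, mul_one, ← pow_succ] at this
          exact this
        rw [W_eq_zero_of_le h2 h3, mul_zero]

end Pool.Agent.MP_cafee0_al
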