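import Pool.Agent.MP_cafee0_al.Center

namespace Pool.Agent.MP_cafee0_al

open Polynomial

variable {K : Type*} [Field K] {q : K}

lemma coeff_zero_mul (hq : q ≠ 0) (u v : UPlus q) :
    (Theta hq (u * v)).coeff 0 = (Theta hq u).coeff 0 * (Theta hq v).coeff 0 := by
  rw [map_mul, mul_coeff_zero]

lemma coeff_zero_entries (hq : q ≠ 0) (u : UPlus q) :
    (Theta hq u).coeff 0 0 1 = 0 ∧ (Theta hq u).coeff 0 1 0 = 0 ∧
      (Theta hq u).coeff 0 0 0 = u := by
  induction u using gen_induction with
  | hgen b =>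
    have h : (Theta hq (gen q b)).coeff 0 = D q b := by
      rw [Theta_gen, coeff_add, coeff_C_zero, mul_coeff_zero, coeff_X_zero, mul_zero, add_zero]
    rw [h]
    cases b <;> simp [D]
  | hc c =>
    rw [AlgHom.commutes, Polynomial.algebraMap_apply, coeff_C_zero]
    simp only [Matrix.algebraMap_matrix_apply]
    simp
  | hadd u v hu hv =>
    simp only [map_add, coeff_add, Matrix.add_apply, hu.1, hv.1, hu.2.1, hv.2.1, hu.2.2, hv.2.2,
      add_zero, and_self]
  | hmul u v hu hv =>
    rw [coeff_zero_mul]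
    simp only [Matrix.mul_apply, Fin.sum_univ_two, hu.1, hv.1, hu.2.1, hv.2.1, hu.2.2, hv.2.2,
      mul_zero, zero_mul, add_zero, and_self]

/-- evaluation of `Θ z` when all coefficients are scalar -/
lemma evT_entries (hq : q ≠ 0) {R : Type*} [Ring R] [Algebra K R] (f : UPlus q →ₐ[K] R) (t : K)
    {z : UPlus q} (p : ℕ → K)
    (h01 : ∀ k, (Theta hq z).coeff k 0 1 = 0) (h10 : ∀ k, (Theta hq z).coeff k 1 0 = 0)
    (h11 : ∀ k, (Theta hq z).coeff k 1 1 = (Theta hq z).coeff k 0 0)
    (hp : ∀ k, (Theta hq z).coeff (k + 1) 0 0 = algebraMap K (UPlus q) (p k))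
    (N : ℕ) (hN : (Theta hq z).natDegree < N + 1) :
    evT hq f t z = algebraMap K _ (∑ k ∈ Finset.range N, p k * t ^ (k + 1)) +
      Matrix.diagonal (fun _ => f z) := by
  rw [evT_apply, eval₂_eq_sum_range' _ hN, Finset.sum_range_succ', pow_zero, mul_one]
  congr 1
  · rw [map_sum]
    apply Finset.sum_congr rfl
    intro k _
    have h1 : (Theta hq z).coeff (k + 1) = algebraMap K _ (p k) := by
      ext i j
      rw [Matrix.algebraMap_matrix_apply]
      fin_cases i <;> fin_cases j
      · simpa using hp k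
      · simpa using h01 (k + 1)
      · simpa using h10 (k + 1)
      · simpa using (h11 (k + 1)).trans (hp k)
    rw [h1, map_mul, map_pow]
    congr 1
    exact AlgHom.commutes (f.mapMatrix (m := Fin 2)) (p k)
  · have h0 := coeff_zero_entries hq z
    have h2 : (Theta hq z).coeff 0 = Matrix.diagonal (fun _ => z) := by
      ext i j
      fin_cases i <;> fin_cases j
      · simpa using h0.2.2
      · simpa using h01 0
      · simpa using h10 0
      · simpa using (h11 0).trans h0.2.2
    rw [h2]
    change (Matrix.diagonal (fun _ => z)).map f = _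
    rw [Matrix.diagonal_map (map_zero f)]

theorem center_filt (hq : q ≠ 0) (hq' : ∀ n : ℕ, 0 < n → q ^ n ≠ 1) (n : ℕ) :
    ∀ z : UPlus q, Filt q n z → (∀ b, gen q b * z = z * gen q b) →
      ∃ c : K, z = algebraMap K (UPlus q) c := by
  induction n using Nat.strong_induction_on with
  | _ n ih =>
  intro z hF hz
  have hG := good_coeff hq hq' hz
  -- higher coefficients are constants
  have hp : ∀ k, ∃ c : K, (Theta hq z).coeff (k + 1) 0 0 = algebraMap K (UPlus q) c := by
    intro k
    have h1 := filt_coeff hq hF (k + 1) 0 0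
    by_cases hk : n < k + 1
    · exact ⟨0, by rw [h1.2 hk, map_zero]⟩
    · exact ih (n - (k + 1)) (by omega) _ h1.1 (hG (k + 1)).2.2.2
  choose p hp using hp
  obtain ⟨N, hN⟩ : ∃ N, (Theta hq z).natDegree < N + 1 := ⟨_, Nat.lt_succ_self _⟩
  have hN' : ∀ k, N ≤ k → p k = 0 := by
    intro k hk
    have h1 := hp k
    rw [coeff_eq_zero_of_natDegree_lt (by omega)] at h1
    have h2 := congrArg (aug q) h1
    rw [AlgHom.commutes] at h2
    simpa using h2.symm
  set P : K[X] := ∑ k ∈ Finset.range N, C (p k) * X ^ (k + 1) with hP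
  have hPeval : ∀ t, P.eval t = ∑ k ∈ Finset.range N, p k * t ^ (k + 1) := by
    intro t; rw [hP, eval_finsetSum]; simp
  have hev1 : ∀ t : K, evT hq (aug q) t z =
      algebraMap K _ (P.eval t) + Matrix.diagonal (fun _ => aug q z) := by
    intro t
    rw [hPeval]
    exact evT_entries hq (aug q) t p (fun k => (hG k).1) (fun k => (hG k).2.1)
      (fun k => (hG k).2.2.1) hp N hN
  have hev2 : ∀ τ t : K, evT hq (rho q τ) t z =
      algebraMap K _ (P.eval t) + Matrix.diagonal (fun _ => rho q τ z) := by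
    intro τ t
    rw [hPeval]
    exact evT_entries hq (rho q τ) t p (fun k => (hG k).1) (fun k => (hG k).2.1)
      (fun k => (hG k).2.2.1) hp N hN
  have hrho : ∀ τ : K, rho q τ z = algebraMap K _ (P.eval τ + aug q z) := by
    intro τ
    rw [← evT_aug hq, hev1 τ, map_add]
    rfl
  have hsum : ∀ τ : K, P.eval τ + P.eval (q * τ) = 0 := by
    intro τ
    have h1 := evT_singlet hq τ z
    rw [hev2 τ (q * τ), hrho τ] at h1
    have h2 := congrFun (congrFun (congrFun (congrFun h1 1) 0) 0) 0
    simp [Sg, Matrix.mul_apply, Fin.sum_univ_two, Matrix.algebraMap_matrix_apply] at h2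
    linear_combination -h2
  have hinf : Infinite K := by
    apply Infinite.of_injective (fun n : ℕ => (q ^ 2) ^ n)
    exact pow_inj_of_not_root hq hq'
  have hpoly : P + P.comp (C q * X) = 0 := by
    apply Polynomial.funext
    intro τ
    rw [eval_add, eval_comp, eval_mul, eval_C, eval_X, eval_zero]
    exact hsum τ
  have hcoeff : ∀ k, P.coeff (k + 1) = p k := by
    intro k
    rw [hP, finsetSum_coeff]
    simp only [coeff_C_mul, coeff_X_pow]
    by_cases hk : k < N
    · rw [Finset.sum_eq_single k]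
      · simp
      · intro j _ hj
        rw [if_neg (by omega), mul_zero]
      · intro h; exact absurd (Finset.mem_range.2 hk) h
    · rw [hN' k (by omega)]
      apply Finset.sum_eq_zero
      intro j hj
      rw [Finset.mem_range] at hj
      rw [if_neg (by omega), mul_zero]
  have hp0 : ∀ k, p k = 0 := by
    intro k
    have h1 := congrArg (fun P : K[X] => P.coeff (k + 1)) hpoly
    simp only [coeff_add, comp_C_mul_X_coeff, coeff_zero, hcoeff] at h1
    have h2 : p k * (1 + q ^ (k + 1)) = 0 := by linear_combination h1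
    rcases mul_eq_zero.1 h2 with h | h
    · exact h
    · exfalso
      have h3 : q ^ (k + 1) = -1 := by linear_combination h
      have h4 : q ^ (2 * (k + 1)) = 1 := by
        rw [mul_comm, pow_mul, h3]; ring
      exact hq' _ (by omega) h4
  apply nondeg hq hq'
  intro b k
  have h00 : (Theta hq z).coeff (k + 1) 0 0 = 0 := by rw [hp k, hp0 k, map_zero]
  have h := hG (k + 1)
  rw [Dl_apply]
  cases b
  · change (Theta hq z).coeff (k + 1) 0 0 + (Theta hq z).coeff (k + 1) 0 1 = 0
    rw [h00, h.1, add_zero]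
  · change (Theta hq z).coeff (k + 1) 1 0 + (Theta hq z).coeff (k + 1) 1 1 = 0
    rw [h.2.1, h.2.2.1, h00, add_zero]

/-- the center of `U⁺` is `K` -/
theorem center_eq_bot (hq : q ≠ 0) (hq' : ∀ n : ℕ, 0 < n → q ^ n ≠ 1) :
    Subalgebra.center K (UPlus q) = ⊥ := by
  rw [eq_bot_iff]
  intro z hz
  rw [Subalgebra.mem_center_iff] at hz
  obtain ⟨n, hn⟩ := exists_filt z
  obtain ⟨c, hc⟩ := center_filt hq hq' n z hn (fun b => hz (gen q b))
  rw [Algebra.mem_bot]
  exact ⟨c, hc.symm⟩

end Pool.Agent.MP_cafee0_al
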