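import Pool.Agent.MP_cafee0_al.Words

namespace Pool.Agent.MP_cafee0_al

open Polynomial

section braided

variable {K : Type*} [Field K] {R : Type*} [Ring R] [Algebra K R]

lemma serre_braided {q : K} (hq : q ≠ 0) {a e c f : R} (h1 : a * e = q ^ 2 • (e * a))
    (h2 : c * e = (q ^ 2)⁻¹ • (e * c)) (h3 : a * f = (q ^ 2)⁻¹ • (f * a)) (h4 : e * e = 0)
    (hs : serre q a c = 0) : serre q (a + e) (c + f) = 0 := by
  have h1' : ∀ r, a * (e * r) = q ^ 2 • (e * (a * r)) := by
    intro r; rw [← mul_assoc, h1, smul_mul_assoc, mul_assoc]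
  have h2' : ∀ r, c * (e * r) = (q ^ 2)⁻¹ • (e * (c * r)) := by
    intro r; rw [← mul_assoc, h2, smul_mul_assoc, mul_assoc]
  have h3' : ∀ r, a * (f * r) = (q ^ 2)⁻¹ • (f * (a * r)) := by
    intro r; rw [← mul_assoc, h3, smul_mul_assoc, mul_assoc]
  have h4' : ∀ r, e * (e * r) = 0 := by
    intro r; rw [← mul_assoc, h4, zero_mul]
  have hs' : a * (a * (a * c)) = (q ^ 2 + 1 + (q ^ 2)⁻¹) • (a * (a * (c * a)))
      - (q ^ 2 + 1 + (q ^ 2)⁻¹) • (a * (c * (a * a))) + c * (a * (a * a)) := by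
    have : serre q a c = a * (a * (a * c)) - (q ^ 2 + 1 + (q ^ 2)⁻¹) • (a * (a * (c * a)))
      + (q ^ 2 + 1 + (q ^ 2)⁻¹) • (a * (c * (a * a))) - c * (a * (a * a)) := by
      simp only [serre, pow_succ, pow_zero, one_mul, mul_assoc]
    rw [this] at hs
    have h5 := sub_eq_zero.1 hs
    rw [← h5]; abel
  have hexp : serre q (a + e) (c + f) =
      (a + e) * ((a + e) * ((a + e) * (c + f)))
      - (q ^ 2 + 1 + (q ^ 2)⁻¹) • ((a + e) * ((a + e) * ((c + f) * (a + e))))
      + (q ^ 2 + 1 + (q ^ 2)⁻¹) • ((a + e) * ((c + f) * ((a + e) * (a + e))))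
      - (c + f) * ((a + e) * ((a + e) * (a + e))) := by
    simp only [serre, pow_succ, pow_zero, one_mul, mul_assoc]
  rw [hexp]
  simp only [mul_add, add_mul, h1, h1', h2, h2', h3, h3', h4, h4', mul_smul_comm, smul_mul_assoc,
    smul_add, smul_smul, mul_zero, smul_zero, add_zero, zero_add, hs', smul_sub]
  match_scalars <;> field_simp <;> ring

end braided

variable {K : Type*} [Field K] (q : K)

/-- diagonal part of `Θ` on generators -/
noncomputable def D (b : Bool) : Matrix (Fin 2) (Fin 2) (UPlus q) :=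
  if b then !![gen q true, 0; 0, (q ^ 2) • gen q true]
  else !![gen q false, 0; 0, (q ^ 2)⁻¹ • gen q false]

/-- off-diagonal part of `Θ` on generators -/
noncomputable def E (b : Bool) : Matrix (Fin 2) (Fin 2) (UPlus q) :=
  if b then !![0, 0; 1, 0] else !![0, 1; 0, 0]

/-- `Θ` on generators -/
noncomputable def Th (b : Bool) : (Matrix (Fin 2) (Fin 2) (UPlus q))[X] :=
  C (D q b) + C (E q b) * X

variable {q}

lemma D_mul_E (hq : q ≠ 0) (b : Bool) : D q b * E q b = q ^ 2 • (E q b * D q b) := by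
  have hq2 : q ^ 2 ≠ 0 := pow_ne_zero 2 hq
  cases b <;> ext i j <;> fin_cases i <;> fin_cases j <;>
    simp [D, E, Matrix.mul_apply, Fin.sum_univ_two, smul_smul, hq2]

lemma D_mul_E' (hq : q ≠ 0) (b : Bool) : D q b * E q (!b) = (q ^ 2)⁻¹ • (E q (!b) * D q b) := by
  have hq2 : q ^ 2 ≠ 0 := pow_ne_zero 2 hq
  cases b <;> ext i j <;> fin_cases i <;> fin_cases j <;>
    simp [D, E, Matrix.mul_apply, Fin.sum_univ_two, smul_smul, hq2]

lemma E_mul_E (b : Bool) : E q b * E q b = 0 := by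
  cases b <;> ext i j <;> fin_cases i <;> fin_cases j <;>
    simp [E, Matrix.mul_apply, Fin.sum_univ_two]

lemma serre_D (hq : q ≠ 0) (b : Bool) : serre q (D q b) (D q (!b)) = 0 := by
  have h := serre_gen q b
  rw [serre] at h
  have key : ∀ s t : K, s * t = 1 → serre q (s • gen q b) (t • gen q (!b)) = 0 := by
    intro s t hst
    have : serre q (s • gen q b) (t • gen q (!b)) = (s ^ 3 * t) • serre q (gen q b) (gen q (!b)) := by
      simp only [serre, pow_succ, pow_zero, one_mul, smul_mul_assoc, mul_smul_comm, smul_smul,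
        mul_assoc]
      match_scalars <;> ring
    rw [this, serre_gen, smul_zero]
  have hdiag : ∀ s t s' t' : K, s * t = 1 → s' * t' = 1 →
      serre q (!![s • gen q b, 0; 0, s' • gen q b] : Matrix (Fin 2) (Fin 2) (UPlus q))
        !![t • gen q (!b), 0; 0, t' • gen q (!b)] = 0 := by
    intro s t s' t' h1 h2
    have k1 := key s t h1
    have k2 := key s' t' h2
    have e1 : ∀ u v : UPlus q, (!![u, 0; 0, v] : Matrix (Fin 2) (Fin 2) (UPlus q)) =
        Matrix.diagonalAlgHom K ![u, v] := by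
      intro u v
      ext i j
      change _ = Matrix.diagonal ![u, v] i j
      fin_cases i <;> fin_cases j <;> simp
    rw [e1, e1, ← serre_map]
    have e2 : serre q ![s • gen q b, s' • gen q b] ![t • gen q (!b), t' • gen q (!b)] = 0 := by
      funext i
      have e3 := serre_map q (Pi.evalAlgHom K (fun _ : Fin 2 => UPlus q) i)
        ![s • gen q b, s' • gen q b] ![t • gen q (!b), t' • gen q (!b)]
      simp only [Pi.evalAlgHom_apply] at e3
      rw [e3]
      fin_cases i
      · exact k1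
      · exact k2
    rw [e2, map_zero]
  have hq2 : q ^ 2 ≠ 0 := pow_ne_zero 2 hq
  cases b
  · have := hdiag 1 1 (q ^ 2)⁻¹ (q ^ 2) (one_mul 1) (inv_mul_cancel₀ hq2)
    simp only [one_smul] at this
    exact this
  · have := hdiag 1 1 (q ^ 2) (q ^ 2)⁻¹ (one_mul 1) (mul_inv_cancel₀ hq2)
    simp only [one_smul] at this
    exact this


lemma C_comm {A B : Matrix (Fin 2) (Fin 2) (UPlus q)} {k : K} (h : A * B = k • (B * A)) :
    (C A : (Matrix (Fin 2) (Fin 2) (UPlus q))[X]) * (C B * X) = k • ((C B * X) * C A) := by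
  rw [← mul_assoc, ← C_mul, h, ← smul_C, C_mul, mul_assoc (C B) X (C A), X_mul_C,
    smul_mul_assoc, mul_assoc]

lemma serre_Th (hq : q ≠ 0) (b : Bool) : serre q (Th q b) (Th q (!b)) = 0 := by
  unfold Th
  apply serre_braided hq
  · exact C_comm (D_mul_E hq b)
  · have := D_mul_E' hq (!b)
    rw [Bool.not_not] at this
    exact C_comm this
  · exact C_comm (D_mul_E' hq b)
  · rw [mul_assoc, X_mul, ← mul_assoc, ← mul_assoc, ← C_mul, E_mul_E]
    simp
  · have h : serre q (C (D q b) : (Matrix (Fin 2) (Fin 2) (UPlus q))[X]) (C (D q (!b))) =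
        C (serre q (D q b) (D q (!b))) := by
      simp only [serre, C_sub, C_add, C_mul, C_pow, ← smul_C]
    rw [h, serre_D hq, C_0]

/-- the algebra homomorphism `Θ : U⁺ → M₂(U⁺)[X]` -/
noncomputable def Theta (hq : q ≠ 0) : UPlus q →ₐ[K] (Matrix (Fin 2) (Fin 2) (UPlus q))[X] :=
  lift q (Th q) (serre_Th hq)

lemma Theta_gen (hq : q ≠ 0) (b : Bool) : Theta hq (gen q b) = C (D q b) + C (E q b) * X := by
  unfold Theta
  rw [lift_gen]
  rfl

end Pool.Agent.MP_cafee0_al
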