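import Pool.Agent.MP_cafee0_al.Higher

/-! Three-run relation. -/

namespace Pool.Agent.MP_cafee0_al

open Polynomial

variable {K : Type*} [Field K] {U : Type*} [Ring U] [Algebra K U]

/-- homogenization: `X ^ k ↦ g ^ k * u * g ^ (N - k)` -/
noncomputable def Lam (K : Type*) [Field K] {U : Type*} [Ring U] [Algebra K U] (N : ℕ) (g u : U) :
    K[X] →ₗ[K] U :=
  Polynomial.lsum (fun k => LinearMap.toSpanSingleton K U (g ^ k * u * g ^ (N - k)))

lemma Lam_X_pow (N : ℕ) (g u : U) (k : ℕ) :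
    Lam K N g u (X ^ k) = g ^ k * u * g ^ (N - k) := by
  unfold Lam
  rw [Polynomial.lsum_apply, ← monomial_one_right_eq_X_pow, sum_monomial_index]
  · simp
  · simp

lemma Lam_prod (Q β : K) (N : ℕ) (g u : U) (n : ℕ) : ∀ m : ℕ, m + n ≤ N →
    Lam K N g u (X ^ m * ∏ l ∈ Finset.range n, (X - C (Q ^ l * β))) =
      g ^ m * W Q g 1 β n u * g ^ (N - m - n) := by
  induction n with
  | zero =>
    intro m _
    simp only [Finset.range_zero, Finset.prod_empty, mul_one, W, Nat.sub_zero]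
    exact Lam_X_pow N g u m
  | succ n ih =>
    intro m hm
    have h1 : X ^ m * ∏ l ∈ Finset.range (n + 1), (X - C (Q ^ l * β)) =
        X ^ (m + 1) * ∏ l ∈ Finset.range n, (X - C (Q ^ l * β)) -
          (Q ^ n * β) • (X ^ m * ∏ l ∈ Finset.range n, (X - C (Q ^ l * β))) := by
      rw [Finset.prod_range_succ, smul_eq_C_mul]
      ring
    rw [h1, map_sub, map_smul, ih (m + 1) (by omega), ih m (by omega)]
    have e1 : N - (m + 1) - n = N - m - (n + 1) := by omega
    have e2 : N - m - n = (N - m - (n + 1)) + 1 := by omega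
    rw [e1, e2, pow_succ g m, pow_succ' g (N - m - (n + 1))]
    simp only [W, one_smul, mul_sub, sub_mul, mul_smul_comm, smul_mul_assoc, mul_assoc]

lemma Lam_mul_prod {Q β : K} {N : ℕ} {g u : U} {n : ℕ} (hW : W Q g 1 β n u = 0) (R : K[X])
    (hR : R.natDegree + n ≤ N) :
    Lam K N g u (R * ∏ l ∈ Finset.range n, (X - C (Q ^ l * β))) = 0 := by
  conv_lhs => rw [R.as_sum_range_C_mul_X_pow]
  rw [Finset.sum_mul, map_sum]
  apply Finset.sum_eq_zero
  intro m hm
  rw [Finset.mem_range] at hm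
  rw [mul_assoc, ← smul_eq_C_mul, map_smul, Lam_prod Q β N g u n m (by omega), hW]
  simp

/-- the extreme exponents -/
def ext (i N : ℕ) : Finset ℕ := Finset.range i ∪ Finset.Icc (N - i) N

lemma mem_ext {i N t : ℕ} : t ∈ ext i N ↔ t < i ∨ (N - i ≤ t ∧ t ≤ N) := by
  simp [ext]

lemma card_ext {i N : ℕ} (h : 2 * i + 1 ≤ N) : (ext i N).card = 2 * i + 1 := by
  unfold ext
  rw [Finset.card_union_of_disjoint]
  · simp; omega
  · rw [Finset.disjoint_left]
    intro x hx hx'
    simp at hx hx'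
    omega

lemma pow_inj_of_not_root {q : K} (hq0 : q ≠ 0) (hq : ∀ n : ℕ, 0 < n → q ^ n ≠ 1) :
    Function.Injective (fun n : ℕ => (q ^ 2) ^ n) := by
  intro a b hab
  simp only at hab
  wlog hlt : a < b generalizing a b
  · rcases Nat.lt_trichotomy a b with h | h | h
    · exact this hab h
    · exact h
    · exact (this hab.symm h).symm
  exfalso
  have h1 : (q ^ 2) ^ b = (q ^ 2) ^ a * q ^ (2 * (b - a)) := by
    rw [← pow_mul, ← pow_mul, ← pow_add]; congr 1; omega
  rw [h1] at hab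
  have h2 : (q ^ 2) ^ a ≠ 0 := pow_ne_zero _ (pow_ne_zero _ hq0)
  have h3 : q ^ (2 * (b - a)) = 1 := by
    have := mul_left_cancel₀ h2 ((mul_one _).trans hab)
    exact this.symm
  exact hq _ (by omega) h3

/-- the interpolation polynomial identity -/
lemma exists_interp {Q : K} (hQ0 : Q ≠ 0) (hQ : Function.Injective (fun n : ℕ => Q ^ n))
    (i N a : ℕ) (hN : 2 * i + 1 ≤ N) (ha : a ≤ N) :
    ∃ κ : ℕ → K, ∃ R : K[X], R.natDegree + (2 * i + 1) ≤ N ∧
      (X ^ a - ∑ t ∈ ext i N, κ t • X ^ t : K[X]) =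
        R * ∏ l ∈ Finset.range (2 * i + 1), (X - C (Q ^ l * (Q⁻¹) ^ i)) := by
  set v : ℕ → K := fun t => Q ^ t with hv
  have hinj : Set.InjOn v (ext i N) := hQ.injOn
  set κ : ℕ → K := fun t => (Lagrange.basis (ext i N) v t).eval (Q ^ a) * (Q ^ t) ^ i *
    ((Q ^ a) ^ i)⁻¹ with hκ
  set f : K[X] := X ^ a - ∑ t ∈ ext i N, κ t • X ^ t with hf
  have hroot : ∀ l ∈ Finset.range (2 * i + 1), (X - C (Q ^ l * (Q⁻¹) ^ i)) ∣ f := by
    intro l hl
    rw [Finset.mem_range] at hl
    rw [dvd_iff_isRoot, IsRoot.def]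
    have h1 : (X ^ l : K[X]) = Lagrange.interpolate (ext i N) v fun t => (X ^ l : K[X]).eval (v t) := by
      apply Lagrange.eq_interpolate hinj
      rw [card_ext hN, degree_X_pow]
      exact_mod_cast hl
    have h2 : (Q ^ a) ^ l = ∑ t ∈ ext i N, (Q ^ t) ^ l *
        (Lagrange.basis (ext i N) v t).eval (Q ^ a) := by
      have := congrArg (fun p : K[X] => p.eval (Q ^ a)) h1
      simp only [Lagrange.interpolate_apply, eval_finsetSum, eval_mul, eval_C, eval_pow,
        eval_X] at this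
      exact this
    simp only [hf, eval_sub, eval_pow, eval_X, eval_finsetSum, eval_smul, smul_eq_mul]
    have h3 : ∀ t : ℕ, (Q ^ l * (Q⁻¹) ^ i) ^ t = (Q ^ t) ^ l * ((Q ^ t) ^ i)⁻¹ := by
      intro t
      rw [mul_pow, inv_pow, inv_pow, ← pow_mul, ← pow_mul, ← pow_mul, ← pow_mul, mul_comm l t,
        mul_comm i t]
    rw [h3, h2, Finset.sum_mul, sub_eq_zero]
    apply Finset.sum_congr rfl
    intro t _
    rw [h3, hκ]
    have h4 : Q ^ t ≠ 0 := pow_ne_zero _ hQ0
    have h5 : Q ^ a ≠ 0 := pow_ne_zero _ hQ0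
    field_simp
  have hdvd : (∏ l ∈ Finset.range (2 * i + 1), (X - C (Q ^ l * (Q⁻¹) ^ i))) ∣ f := by
    apply Finset.prod_dvd_of_coprime _ hroot
    intro l _ l' _ hll'
    have hs : Function.Injective (fun l : ℕ => Q ^ l * (Q⁻¹) ^ i) := by
      intro l l' h
      simp only at h
      exact hQ (mul_right_cancel₀ (pow_ne_zero _ (inv_ne_zero hQ0)) h)
    exact pairwise_coprime_X_sub_C hs hll'
  obtain ⟨R, hR⟩ := hdvd
  refine ⟨κ, R, ?_, by rw [← hf, hR, mul_comm]⟩
  by_cases hR0 : R = 0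
  · rw [hR0, natDegree_zero]; omega
  have hPmonic : (∏ l ∈ Finset.range (2 * i + 1), (X - C (Q ^ l * (Q⁻¹) ^ i))).Monic :=
    monic_prod_of_monic _ _ fun l _ => monic_X_sub_C _
  have hdeg : f.natDegree = (2 * i + 1) + R.natDegree := by
    rw [hR, hPmonic.natDegree_mul' hR0, natDegree_prod_of_monic _ _ fun l _ => monic_X_sub_C _]
    simp only [natDegree_X_sub_C, Finset.sum_const, Finset.card_range, smul_eq_mul, mul_one]
  have hfdeg : f.natDegree ≤ N := by
    rw [hf]
    apply (natDegree_sub_le _ _).trans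
    apply max_le
    · rw [natDegree_X_pow]; exact ha
    · apply natDegree_sum_le_of_forall_le
      intro t ht
      apply (natDegree_smul_le _ _).trans
      rw [natDegree_X_pow]
      rw [mem_ext] at ht
      omega
  omega

/-- the three-run relation -/
lemma three_run {q : K} (hq0 : q ≠ 0) (hq : ∀ n : ℕ, 0 < n → q ^ n ≠ 1) {g h : U}
    (hs : serre q g h = 0) {a i c : ℕ} (hia : i ≤ a) (hic : i < c) :
    ∃ κ : ℕ → K, g ^ a * h ^ i * g ^ c =
      ∑ t ∈ ext i (a + c), κ t • (g ^ t * h ^ i * g ^ (a + c - t)) := by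
  obtain ⟨κ, R, hR, hf⟩ := exists_interp (Q := q ^ 2) (pow_ne_zero 2 hq0)
    (pow_inj_of_not_root hq0 hq) i (a + c) a (by omega) (by omega)
  refine ⟨κ, ?_⟩
  have hW := higher hq0 hs i
  have h1 := Lam_mul_prod (N := a + c) hW R hR
  rw [← hf, map_sub, map_sum, Lam_X_pow, sub_eq_zero] at h1
  have e1 : a + c - a = c := by omega
  rw [e1] at h1
  rw [h1]
  apply Finset.sum_congr rfl
  intro t _
  rw [map_smul, Lam_X_pow]

end Pool.Agent.MP_cafee0_al
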