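import Pool.Agent.MP_cafee0_al.Theta

namespace Pool.Agent.MP_cafee0_al

open Polynomial

variable {K : Type*} [Field K] {q : K}

/-- row index attached to a generator -/
def row (b : Bool) : Fin 2 := if b then 1 else 0

/-- `Δ b k u`: sum of the entries of the row `row b` of the `k`-th coefficient of `Θ u` -/
noncomputable def Dl (hq : q ≠ 0) (b : Bool) (k : ℕ) : UPlus q →ₗ[K] UPlus q where
  toFun u := (Theta hq u).coeff k (row b) 0 + (Theta hq u).coeff k (row b) 1
  map_add' u v := by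
    simp only [map_add, coeff_add, Matrix.add_apply]; abel
  map_smul' c u := by
    simp only [map_smul, coeff_smul, Matrix.smul_apply, smul_add, RingHom.id_apply]

lemma Dl_apply (hq : q ≠ 0) (b : Bool) (k : ℕ) (u : UPlus q) :
    Dl hq b k u = (Theta hq u).coeff k (row b) 0 + (Theta hq u).coeff k (row b) 1 := rfl

/-- the diagonal scalar -/
noncomputable def ds (q : K) (b : Bool) : K := if b then q ^ 2 else 1

/-- the other diagonal scalar -/
noncomputable def ds' (q : K) (b : Bool) : K := if b then 1 else (q ^ 2)⁻¹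

lemma coeff_gen_mul_zero (hq : q ≠ 0) (b : Bool) (u : UPlus q) :
    (Theta hq (gen q b * u)).coeff 0 = D q b * (Theta hq u).coeff 0 := by
  rw [map_mul, Theta_gen, add_mul, coeff_add, coeff_C_mul, mul_assoc, coeff_C_mul,
    mul_coeff_zero, coeff_X_zero, zero_mul, mul_zero, add_zero]

lemma coeff_gen_mul_succ (hq : q ≠ 0) (b : Bool) (u : UPlus q) (k : ℕ) :
    (Theta hq (gen q b * u)).coeff (k + 1) =
      D q b * (Theta hq u).coeff (k + 1) + E q b * (Theta hq u).coeff k := by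
  rw [map_mul, Theta_gen, add_mul, coeff_add, coeff_C_mul, mul_assoc, coeff_C_mul,
    coeff_X_mul]

lemma coeff_mul_gen_zero (hq : q ≠ 0) (b : Bool) (u : UPlus q) :
    (Theta hq (u * gen q b)).coeff 0 = (Theta hq u).coeff 0 * D q b := by
  rw [map_mul, Theta_gen, mul_add, coeff_add, coeff_mul_C, ← mul_assoc, mul_coeff_zero,
    coeff_X_zero, mul_zero, add_zero]

lemma coeff_mul_gen_succ (hq : q ≠ 0) (b : Bool) (u : UPlus q) (k : ℕ) :
    (Theta hq (u * gen q b)).coeff (k + 1) =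
      (Theta hq u).coeff (k + 1) * D q b + (Theta hq u).coeff k * E q b := by
  rw [map_mul, Theta_gen, mul_add, coeff_add, coeff_mul_C, ← mul_assoc, coeff_mul_X,
    coeff_mul_C]

lemma D_mul_row (b : Bool) (Z : Matrix (Fin 2) (Fin 2) (UPlus q)) (j : Fin 2) :
    (D q b * Z) (row b) j = ds q b • (gen q b * Z (row b) j) := by
  rw [Matrix.mul_apply, Fin.sum_univ_two]
  cases b <;> simp [D, row, ds]

lemma D_mul_row' (b : Bool) (Z : Matrix (Fin 2) (Fin 2) (UPlus q)) (j : Fin 2) :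
    (D q b * Z) (row (!b)) j = ds' q b • (gen q b * Z (row (!b)) j) := by
  rw [Matrix.mul_apply, Fin.sum_univ_two]
  cases b <;> simp [D, row, ds']

lemma E_mul_row (b : Bool) (Z : Matrix (Fin 2) (Fin 2) (UPlus q)) (j : Fin 2) :
    (E q b * Z) (row b) j = Z (row (!b)) j := by
  rw [Matrix.mul_apply, Fin.sum_univ_two]
  cases b <;> simp [E, row]

lemma E_mul_row' (b : Bool) (Z : Matrix (Fin 2) (Fin 2) (UPlus q)) (j : Fin 2) :
    (E q b * Z) (row (!b)) j = 0 := by
  rw [Matrix.mul_apply, Fin.sum_univ_two]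
  cases b <;> simp [E, row]

lemma Dl_gen_succ (hq : q ≠ 0) (b : Bool) (u : UPlus q) (k : ℕ) :
    Dl hq b (k + 1) (gen q b * u) =
      ds q b • (gen q b * Dl hq b (k + 1) u) + Dl hq (!b) k u := by
  simp only [Dl_apply, coeff_gen_mul_succ, Matrix.add_apply, D_mul_row, E_mul_row, mul_add,
    smul_add]
  abel

lemma Dl_gen_zero (hq : q ≠ 0) (b : Bool) (u : UPlus q) :
    Dl hq b 0 (gen q b * u) = ds q b • (gen q b * Dl hq b 0 u) := by
  simp only [Dl_apply, coeff_gen_mul_zero, D_mul_row, mul_add, smul_add]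

lemma Dl_gen' (hq : q ≠ 0) (b : Bool) (u : UPlus q) (k : ℕ) :
    Dl hq (!b) k (gen q b * u) = ds' q b • (gen q b * Dl hq (!b) k u) := by
  cases k with
  | zero =>
    simp only [Dl_apply, coeff_gen_mul_zero, D_mul_row', mul_add, smul_add]
  | succ k =>
    simp only [Dl_apply, coeff_gen_mul_succ, Matrix.add_apply, D_mul_row', E_mul_row', mul_add,
      smul_add, add_zero]

lemma Dl_one_zero (hq : q ≠ 0) (b : Bool) : Dl hq b 0 1 = 1 := by
  simp only [Dl_apply, map_one, coeff_one_zero]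
  cases b
  · change (1 : Matrix (Fin 2) (Fin 2) (UPlus q)) 0 0 + (1 : Matrix (Fin 2) (Fin 2) (UPlus q)) 0 1 = 1
    simp
  · change (1 : Matrix (Fin 2) (Fin 2) (UPlus q)) 1 0 + (1 : Matrix (Fin 2) (Fin 2) (UPlus q)) 1 1 = 1
    simp

lemma Dl_one_succ (hq : q ≠ 0) (b : Bool) (k : ℕ) : Dl hq b (k + 1) 1 = 0 := by
  simp only [Dl_apply, map_one]
  have : (1 : (Matrix (Fin 2) (Fin 2) (UPlus q))[X]).coeff (k + 1) = 0 := by
    rw [coeff_one]; simp
  rw [this]; simp

lemma Dl_pow' (hq : q ≠ 0) (b : Bool) (u : UPlus q) (k i : ℕ) :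
    Dl hq (!b) k (gen q b ^ i * u) = (ds' q b) ^ i • (gen q b ^ i * Dl hq (!b) k u) := by
  induction i with
  | zero => simp
  | succ i ih =>
    rw [pow_succ', mul_assoc, Dl_gen', ih, mul_smul_comm, smul_smul, pow_succ' (ds' q b),
      mul_assoc]

/-- the `q`-integer in front -/
noncomputable def qi (q : K) (b : Bool) : ℕ → K
  | 0 => 0
  | i + 1 => ds q b * qi q b i + (ds' q b) ^ i

lemma Dl_pow_succ (hq : q ≠ 0) (b : Bool) (u : UPlus q) (k i : ℕ) :
    Dl hq b (k + 1) (gen q b ^ i * u) = (ds q b) ^ i • (gen q b ^ i * Dl hq b (k + 1) u) +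
      qi q b i • (gen q b ^ (i - 1) * Dl hq (!b) k u) := by
  induction i with
  | zero => simp [qi]
  | succ i ih =>
    rw [pow_succ' (gen q b), mul_assoc, Dl_gen_succ, ih, Dl_pow']
    cases i with
    | zero => simp [qi]
    | succ i =>
      simp only [Nat.add_sub_cancel, mul_add, smul_add, mul_smul_comm, smul_smul, qi, add_smul,
        ← mul_assoc, ← pow_succ']
      abel

lemma ds_mul (hq : q ≠ 0) (b : Bool) : ds q b * (q ^ 2)⁻¹ = ds' q b := by
  have hq2 : q ^ 2 ≠ 0 := pow_ne_zero 2 hq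
  cases b <;> simp [ds, ds', hq2]

lemma qi_eq (hq : q ≠ 0) (b : Bool) (i : ℕ) :
    qi q b i * (1 - (q ^ 2)⁻¹) * ds q b = (ds q b) ^ i - (ds' q b) ^ i := by
  induction i with
  | zero => simp [qi]
  | succ i ih =>
    have h := ds_mul hq b
    calc qi q b (i + 1) * (1 - (q ^ 2)⁻¹) * ds q b
        = ds q b * (qi q b i * (1 - (q ^ 2)⁻¹) * ds q b) +
          (ds' q b) ^ i * (ds q b - ds q b * (q ^ 2)⁻¹) := by simp only [qi]; ring
      _ = _ := by rw [ih, h]; ring

lemma qi_ne_zero (hq : q ≠ 0) (hq' : ∀ n : ℕ, 0 < n → q ^ n ≠ 1) (b : Bool) {i : ℕ} (hi : 1 ≤ i) :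
    qi q b i ≠ 0 := by
  intro h0
  have h := qi_eq hq b i
  rw [h0, zero_mul, zero_mul] at h
  have hq2 : q ^ 2 ≠ 0 := pow_ne_zero 2 hq
  have h1 := sub_eq_zero.1 h.symm
  have h2 : q ^ (2 * i) = 1 := by
    rw [pow_mul]
    cases b
    · simp only [ds, ds', Bool.false_eq_true, if_false, one_pow, inv_pow] at h1
      exact inv_eq_one.1 h1.symm
    · simp only [ds, ds', if_true, one_pow] at h1
      exact h1
  exact hq' _ (by omega) h2

end Pool.Agent.MP_cafee0_al
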