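import Pool.Agent.MP_cafee0_al.ThreeRun

/-! Words given by run lengths, and spanning by irreducible words. -/

namespace Pool.Agent.MP_cafee0_al

variable {K : Type*} [Field K] {U : Type*} [Ring U] [Algebra K U]

/-- the word with run lengths `l`, the first run being a power of `g b` -/
def mon (g : Bool → U) : Bool → List ℕ → U
  | _, [] => 1
  | b, i :: l => g b ^ i * mon g (!b) l

/-- type of the run following a prefix `p` -/
def flipN : Bool → ℕ → Bool
  | b, 0 => b
  | b, n + 1 => flipN (!b) n

lemma mon_append (g : Bool → U) (b : Bool) (p l : List ℕ) :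
    mon g b (p ++ l) = mon g b p * mon g (flipN b p.length) l := by
  induction p generalizing b with
  | nil => simp [mon, flipN]
  | cons a p ih => simp [mon, flipN, ih, mul_assoc]

/-- no consecutive `a, b, c` with `b ≤ a` and `b < c` -/
def Tri : List ℕ → Prop
  | a :: b :: c :: l => ¬ (b ≤ a ∧ b < c) ∧ Tri (b :: c :: l)
  | _ => True

lemma not_tri {l : List ℕ} (h : ¬ Tri l) : ∃ (p : List ℕ) (a b c : ℕ) (s : List ℕ),
    l = p ++ a :: b :: c :: s ∧ b ≤ a ∧ b < c := by
  induction l with
  | nil => exact absurd trivial h
  | cons a l ih =>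
    match l, h, ih with
    | [], h, _ => exact absurd trivial h
    | [_], h, _ => exact absurd trivial h
    | b :: c :: l, h, ih =>
      by_cases h1 : b ≤ a ∧ b < c
      · exact ⟨[], a, b, c, l, rfl, h1.1, h1.2⟩
      · have h2 : ¬ Tri (b :: c :: l) := fun h3 => h ⟨h1, h3⟩
        obtain ⟨p, a', b', c', s, hl, h4, h5⟩ := ih h2
        exact ⟨a :: p, a', b', c', s, by rw [hl]; rfl, h4, h5⟩

/-- irreducible run-length lists -/
def Irr (l : List ℕ) : Prop := Tri l ∧ ∀ i ∈ l, 1 ≤ i

/-- sum of squares -/
def sq : List ℕ → ℕ
  | [] => 0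
  | a :: l => a ^ 2 + sq l

/-- weighted sum -/
def psi : List ℕ → ℕ
  | [] => 0
  | _ :: l => psi l + l.sum

lemma sq_le (l : List ℕ) : sq l ≤ l.sum ^ 2 := by
  induction l with
  | nil => simp [sq]
  | cons a l ih =>
    simp only [sq, List.sum_cons]
    nlinarith [Nat.zero_le (a * l.sum)]

lemma sq_append (p l : List ℕ) : sq (p ++ l) = sq p + sq l := by
  induction p with
  | nil => simp [sq]
  | cons a p ih => simp [sq, ih, add_assoc]

lemma psi_append_lt (p r r' : List ℕ) (hs : r'.sum = r.sum) (h : psi r' < psi r) :
    psi (p ++ r') < psi (p ++ r) := by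
  induction p with
  | nil => simpa using h
  | cons a p ih =>
    simp only [List.cons_append, psi, List.sum_append, hs]
    omega

/-- every word can be written with positive run lengths, with strictly fewer runs if some run length
was zero -/
lemma normalize (g : Bool → U) (l : List ℕ) : ∀ b : Bool, ∃ (b' : Bool) (l' : List ℕ),
    (∀ i ∈ l', 1 ≤ i) ∧ l'.length ≤ l.length ∧ (0 ∈ l → l'.length < l.length) ∧
      mon g b l = mon g b' l' := by
  induction l with
  | nil => intro b; exact ⟨b, [], by simp, le_rfl, by simp, rfl⟩
  | cons a l ih =>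
    intro b
    obtain ⟨b'', l'', hpos, hlen, hlen', heq⟩ := ih (!b)
    by_cases ha : a = 0
    · subst ha
      refine ⟨b'', l'', hpos, by simp; omega, fun _ => by simp; omega, ?_⟩
      simp [mon, heq]
    · have ha' : 1 ≤ a := Nat.one_le_iff_ne_zero.2 ha
      by_cases hb : b'' = b
      · subst hb
        match l'', hpos, hlen, hlen', heq with
        | [], _, _, _, heq =>
          refine ⟨b'', [a], by simpa using ha', by simp, ?_, by simp [mon, heq]⟩
          intro h0
          have : 0 ∈ l := by
            rcases List.mem_cons.1 h0 with h | h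
            · exact absurd h.symm ha
            · exact h
          have := List.length_pos_of_mem this
          simp; omega
        | c :: l'', hpos, hlen, hlen', heq =>
          refine ⟨b'', (a + c) :: l'', ?_, by simpa using (by simp at hlen; omega), ?_, ?_⟩
          · intro i hi
            rcases List.mem_cons.1 hi with h | h
            · omega
            · exact hpos i (List.mem_cons_of_mem _ h)
          · intro _; simp at hlen ⊢; omega
          · simp only [mon] at heq ⊢
            rw [heq, pow_add, mul_assoc]
      · have hb' : b'' = !b := by cases b <;> cases b'' <;> simp_all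
        subst hb'
        refine ⟨b, a :: l'', ?_, by simpa using hlen, ?_, by simp [mon, heq]⟩
        · intro i hi
          rcases List.mem_cons.1 hi with h | h
          · omega
          · exact hpos i h
        · intro h0
          rcases List.mem_cons.1 h0 with h | h
          · exact absurd h.symm ha
          · simpa using hlen' h

/-- the span of the irreducible words -/
def S (K : Type*) [Field K] {U : Type*} [Ring U] [Algebra K U] (g : Bool → U) : Submodule K U :=
  Submodule.span K {u | ∃ (b : Bool) (l : List ℕ), Irr l ∧ u = mon g b l}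

theorem mon_mem_S {q : K} (hq0 : q ≠ 0) (hq : ∀ n : ℕ, 0 < n → q ^ n ≠ 1) (g : Bool → U)
    (hs : ∀ b, serre q (g b) (g (!b)) = 0) (b : Bool) (l : List ℕ) (hpos : ∀ i ∈ l, 1 ≤ i) :
    mon g b l ∈ S K g := by
  by_cases hT : Tri l
  · exact Submodule.subset_span ⟨b, l, ⟨hT, hpos⟩, rfl⟩
  obtain ⟨p, a, i, c, s, hl, hia, hic⟩ := not_tri hT
  have hi1 : 1 ≤ i := hpos i (by rw [hl]; simp)
  obtain ⟨κ, hκ⟩ := three_run hq0 hq (hs (flipN b p.length)) hia hic
  have hmon : mon g b l = ∑ t ∈ ext i (a + c), κ t • mon g b (p ++ t :: i :: (a + c - t) :: s) := by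
    rw [hl, mon_append]
    have h1 : mon g (flipN b p.length) (a :: i :: c :: s) =
        (g (flipN b p.length) ^ a * g (!flipN b p.length) ^ i * g (flipN b p.length) ^ c) *
          mon g (!flipN b p.length) s := by
      simp [mon, mul_assoc]
    rw [h1, hκ, Finset.sum_mul, Finset.mul_sum]
    apply Finset.sum_congr rfl
    intro t _
    rw [mon_append]
    simp [mon, mul_assoc]
  rw [hmon]
  apply Submodule.sum_mem
  intro t ht
  apply Submodule.smul_mem
  by_cases h0 : 0 ∈ (p ++ t :: i :: (a + c - t) :: s)
  · obtain ⟨b', l', hpos', _, hlen', heq⟩ := normalize g (p ++ t :: i :: (a + c - t) :: s) b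
    have hlen'' : l'.length < l.length := by
      have := hlen' h0
      rw [hl]
      simpa using this
    rw [heq]
    exact mon_mem_S hq0 hq g hs b' l' hpos'
  · have hpos'' : ∀ j ∈ (p ++ t :: i :: (a + c - t) :: s), 1 ≤ j := by
      intro j hj
      rcases Nat.eq_zero_or_pos j with h | h
      · subst h; exact absurd hj h0
      · exact h
    have hlen : (p ++ t :: i :: (a + c - t) :: s).length = l.length := by rw [hl]; simp
    rw [mem_ext] at ht
    have htle : t ≤ a + c := by omega
    have hsum : (p ++ t :: i :: (a + c - t) :: s).sum = l.sum := by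
      rw [hl]; simp; omega
    have hmeas : sq l < sq (p ++ t :: i :: (a + c - t) :: s) ∨
        (sq l = sq (p ++ t :: i :: (a + c - t) :: s) ∧
          psi (p ++ t :: i :: (a + c - t) :: s) < psi l) := by
      obtain ⟨t', ht'⟩ : ∃ t', t' = a + c - t := ⟨_, rfl⟩
      have htt : t + t' = a + c := by omega
      rw [← ht']
      have e1 : sq l = sq p + (a ^ 2 + (i ^ 2 + (c ^ 2 + sq s))) := by
        rw [hl, sq_append]; rfl
      have e2 : sq (p ++ t :: i :: t' :: s) = sq p + (t ^ 2 + (i ^ 2 + (t' ^ 2 + sq s))) := by
        rw [sq_append]; rfl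
      rw [e1, e2]
      rcases ht with ht | ⟨ht1, ht2⟩
      · left
        have h1 : t < a := by omega
        have h2 : t < c := by omega
        have h3 : a ^ 2 + c ^ 2 < t ^ 2 + t' ^ 2 := by
          have h4 : t' = a + c - t := by omega
          obtain ⟨d, rfl⟩ : ∃ d, a = t + d := ⟨a - t, by omega⟩
          obtain ⟨e, rfl⟩ : ∃ e, c = t + e := ⟨c - t, by omega⟩
          have h5 : t' = t + d + e := by omega
          subst h5
          have : 0 < d * e := Nat.mul_pos (by omega) (by omega)
          nlinarith
        omega
      · have h1 : t' ≤ i := by omega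
        by_cases h2 : t' < a
        · left
          have h2' : t' < c := by omega
          have h3 : a ^ 2 + c ^ 2 < t ^ 2 + t' ^ 2 := by
            obtain ⟨d, rfl⟩ : ∃ d, a = t' + d := ⟨a - t', by omega⟩
            obtain ⟨e, rfl⟩ : ∃ e, c = t' + e := ⟨c - t', by omega⟩
            have h5 : t = t' + d + e := by omega
            subst h5
            have : 0 < d * e := Nat.mul_pos (by omega) (by omega)
            nlinarith
          omega
        · right
          have h3 : t' = a := by omega
          have h4 : t = c := by omega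
          subst h3; subst h4
          refine ⟨by ring, ?_⟩
          rw [hl]
          apply psi_append_lt
          · simp; omega
          · simp only [psi, List.sum_cons]; omega
    exact mon_mem_S hq0 hq g hs b _ hpos''
termination_by (l.length, l.sum ^ 2 - sq l, psi l)
decreasing_by
  · exact Prod.Lex.left _ _ hlen''
  · rw [hlen, hsum]
    apply Prod.Lex.right
    rcases hmeas with h | ⟨h, h'⟩
    · apply Prod.Lex.left
      have h1 := sq_le l
      have h2 := sq_le (p ++ t :: i :: (a + c - t) :: s)
      rw [hsum] at h2
      omega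
    · rw [← h]
      exact Prod.Lex.right _ h'

theorem S_eq_top {q : K} (hq0 : q ≠ 0) (hq : ∀ n : ℕ, 0 < n → q ^ n ≠ 1) (g : Bool → U)
    (hs : ∀ b, serre q (g b) (g (!b)) = 0) (hgen : Algebra.adjoin K (Set.range g) = ⊤) :
    S K g = ⊤ := by
  have hmon : ∀ (b : Bool) (l : List ℕ), mon g b l ∈ S K g := by
    intro b l
    obtain ⟨b', l', hpos, _, _, heq⟩ := normalize g l b
    rw [heq]
    exact mon_mem_S hq0 hq g hs b' l' hpos
  have h1 : (1 : U) ∈ S K g := by simpa [mon] using hmon true []
  have hstep : ∀ (b : Bool), ∀ u ∈ S K g, g b * u ∈ S K g := by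
    intro b u hu
    induction hu using Submodule.span_induction with
    | mem u hu =>
      obtain ⟨b', l, _, rfl⟩ := hu
      by_cases hb : b' = b
      · subst hb
        have := hmon b' (1 :: 0 :: l)
        simpa [mon] using this
      · have hb' : b' = !b := by cases b <;> cases b' <;> simp_all
        subst hb'
        have := hmon b (1 :: l)
        simpa [mon] using this
    | zero => simp
    | add u v _ _ hu hv => rw [mul_add]; exact (S K g).add_mem hu hv
    | smul c u _ hu => rw [mul_smul_comm]; exact (S K g).smul_mem c hu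
  have hall : ∀ v ∈ Algebra.adjoin K (Set.range g), ∀ u ∈ S K g, v * u ∈ S K g := by
    intro v hv
    induction hv using Algebra.adjoin_induction with
    | mem v hv =>
      obtain ⟨b, rfl⟩ := hv
      exact hstep b
    | algebraMap c =>
      intro u hu
      rw [← Algebra.smul_def]
      exact (S K g).smul_mem c hu
    | add v w _ _ hv hw =>
      intro u hu
      rw [add_mul]
      exact (S K g).add_mem (hv u hu) (hw u hu)
    | mul v w _ _ hv hw =>
      intro u hu
      rw [mul_assoc]
      exact hv _ (hw u hu)
  rw [eq_top_iff]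
  intro v _
  have hv : v ∈ Algebra.adjoin K (Set.range g) := by rw [hgen]; trivial
  simpa using hall v hv 1 h1

end Pool.Agent.MP_cafee0_al
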